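import Mathlib
import Pool.Agent.TH286.GT.All
import Pool.Agent.TH717.SK.LinA

/-!
The core theorem: a sequence of integral points whose conjugate forms grow like the powers of
units, and which lie on a rational hyperplane, frequently lie on the hyperplane class by class.
-/

set_option autoImplicit false

open Finset Filter Topology

namespace Pool.Agent.TH717.SK

open NumberField
open Pool.Agent.TH286.GT.GrowD (sg sg_coe sg_inj)

section kron

variable {K : Type} [Field K] [NumberField K] [IsGalois ℚ K]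

/-- an algebraic unit all of whose conjugates have absolute value at least one is a root of
unity -/
theorem kron (ψ : K →+* ℂ) (β : 𝓞 K) (hu : IsUnit β)
    (h : ∀ σ : K ≃ₐ[ℚ] K, 1 ≤ ‖ψ ((sg σ β : 𝓞 K) : K)‖) : ∃ k : ℕ, 1 ≤ k ∧ β ^ k = 1 := by
  obtain ⟨γ, hγ⟩ := hu.exists_right_inv
  have hγ' : (β : K) * (γ : K) = 1 := by
    rw [← map_mul, hγ, map_one]
  have h0 : (γ : K) ≠ 0 := by
    intro h0
    rw [h0, mul_zero] at hγ'
    exact zero_ne_one hγ'
  obtain ⟨k, hk, hk1⟩ := NumberField.Embeddings.pow_eq_one_of_norm_le_one K ℂ h0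
    γ.isIntegral_coe (fun φ => by
      obtain ⟨σ, hσ⟩ := NumberField.ComplexEmbedding.exists_comp_symm_eq_of_comp_eq (k := ℚ) ψ φ
        (Subsingleton.elim _ _)
      have h1 := h σ.symm
      rw [sg_coe] at h1
      have h2 : ψ (σ.symm (β : K)) * φ (γ : K) = 1 := by
        rw [← hσ]
        show ψ (σ.symm (β : K)) * ψ (σ.symm (γ : K)) = 1
        rw [← map_mul, ← map_mul, hγ', map_one, map_one]
      have h3 : ‖ψ (σ.symm (β : K))‖ * ‖φ (γ : K)‖ = 1 := by
        rw [← norm_mul, h2, norm_one]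
      nlinarith [norm_nonneg (φ (γ : K))])
  refine ⟨k, hk, ?_⟩
  have h4 : (β ^ k : K) = 1 := by
    have h5 : ((β : K) * (γ : K)) ^ k = 1 := by rw [hγ', one_pow]
    rw [mul_pow, hk1, mul_one] at h5
    exact h5
  apply RingOfIntegers.ext
  rw [RingOfIntegers.coe_eq_algebraMap, RingOfIntegers.coe_eq_algebraMap, map_pow, map_one]
  exact h4

end kron

section core

variable {K : Type} [Field K] [NumberField K] [IsGalois ℚ K]

/-- the subspace theorem for real forms built from conjugate forms of size less than one in the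
product -/
theorem small_case (ψ : K →+* ℂ) (cj : K ≃ₐ[ℚ] K)
    (hcj : ∀ x, ψ (cj x) = (starRingEnd ℂ) (ψ x)) (iK : 𝓞 K) (hi : ψ (iK : K) = Complex.I)
    {m : ℕ} (hm : 1 ≤ m) (N : Matrix (Fin m) (Fin m) (𝓞 K)) (hN : N.det ≠ 0)
    (al : Fin m → 𝓞 K) (hal : ∀ k, al k ≠ 0) (hprod : ∏ k, ‖ψ (al k : K)‖ < 1)
    (z : ℕ → Fin m → ℤ) (hz : ∀ t, z t ≠ 0) (n : ℕ → ℕ) (H : ℕ → ℝ) (hH : ∀ t, 1 ≤ H t)
    (hn : Tendsto n atTop atTop)
    (hHn : ∀ δ : ℝ, 0 < δ → ∀ᶠ t in atTop, Real.log (H t) ≤ δ * n t)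
    (hs : ∀ t k, ‖ψ (∑ j, (N k j : K) * (z t j : K))‖ ≤ H t * ‖ψ (al k : K)‖ ^ n t) :
    ∃ y : Fin m → ℤ, y ≠ 0 ∧ ∃ᶠ t in atTop, ∑ l, y l * z t l = 0 := by
  classical
  have hiK : iK ≠ 0 := by
    intro h
    rw [h, RingOfIntegers.coe_eq_algebraMap, map_zero, map_zero] at hi
    exact Complex.I_ne_zero hi.symm
  obtain ⟨S, hS⟩ := real_rows (sg cj) iK hiK (by norm_num) N hN
  set R : Matrix (Fin m) (Fin m) (𝓞 K) := Matrix.of fun k j =>
    if k ∈ S then N k j + sg cj (N k j) else iK * (N k j - sg cj (N k j)) with hR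
  set φ : 𝓞 K →+* ℂ := ψ.comp (algebraMap (𝓞 K) K) with hφ
  have hφcj : ∀ x : 𝓞 K, φ (sg cj x) = (starRingEnd ℂ) (φ x) := fun x => hcj x
  have hreal : ∀ i j, (φ (R i j)).im = 0 := by
    intro i j
    simp only [hR, Matrix.of_apply]
    split_ifs
    · rw [map_add, hφcj]
      simp
    · rw [map_mul, map_sub, hφcj]
      have : φ iK = Complex.I := hi
      rw [this]
      simp
  set a : Fin m → ℝ := fun k => Real.log ‖ψ (al k : K)‖ with ha
  have hpos : ∀ k, 0 < ‖ψ (al k : K)‖ := by
    intro k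
    rw [norm_pos_iff]
    intro h
    rw [map_eq_zero] at h
    exact hal k (by exact_mod_cast h)
  have hsum : ∑ k, a k < 0 := by
    show ∑ k, Real.log ‖ψ (al k : K)‖ < 0
    rw [← Real.log_prod (fun k _ => (hpos k).ne')]
    exact Real.log_neg (Finset.prod_pos fun k _ => hpos k) hprod
  set γ : ℝ := -(∑ k, a k) / 2 with hγ
  have hγ0 : 0 < γ := by rw [hγ]; linarith
  set c : ℝ := 2 + ∑ k, |a k| with hc
  have hac : ∀ k, |a k| ≤ c - 2 := by
    intro k
    rw [hc]
    have := Finset.single_le_sum (f := fun k => |a k|) (fun i _ => abs_nonneg _)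
      (Finset.mem_univ k)
    linarith
  have hc1 : 1 ≤ c := by
    have : 0 ≤ ∑ k, |a k| := Finset.sum_nonneg fun k _ => abs_nonneg _
    rw [hc]; linarith
  have hmR : (0 : ℝ) < m := by exact_mod_cast hm
  set δ : ℝ := min 1 (γ / (2 * m)) with hδ
  have hδ0 : 0 < δ := lt_min one_pos (by positivity)
  -- good indices
  have hev : ∀ᶠ t in atTop, Real.log (H t) ≤ δ * n t ∧ Real.log 2 ≤ δ * n t ∧ (0 : ℝ) < n t := by
    have h1 : Tendsto (fun t => (n t : ℝ)) atTop atTop := tendsto_natCast_atTop_atTop.comp hn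
    have h2 : ∀ᶠ t in atTop, Real.log 2 ≤ δ * n t :=
      (h1.const_mul_atTop hδ0).eventually_ge_atTop _
    exact (hHn δ hδ0).and (h2.and (h1.eventually_gt_atTop 0))
  obtain ⟨t0, ht0⟩ := Filter.eventually_atTop.1 hev
  have hτ : Tendsto (fun t => t + t0) atTop atTop := tendsto_add_atTop_nat t0
  have key := Pool.Agent.TH286.GT.subspaceO (𝓞 K) φ m 0 hm R 1 (fun v => v.elim0)
    ⟨hS, hreal, by simp, fun v => v.elim0⟩ c γ hc1 hγ0 (fun t => (n (t + t0) : ℝ))
    ((tendsto_natCast_atTop_atTop.comp hn).comp hτ) (fun _ v => v.elim0) (fun _ => 1)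
    (by
      intro t
      refine ⟨by simp, ?_⟩
      have : Pool.Agent.TH286.GT.bet (O := 𝓞 K) (ι := Fin m) (s := 0) (fun v => v.elim0)
          (fun v => v.elim0) = fun _ => 1 := by
        funext l
        simp [Pool.Agent.TH286.GT.bet]
      rw [this]
      simp)
    (fun t k => 2 * H (t + t0) * ‖ψ (al k : K)‖ ^ n (t + t0))
    (by
      intro t
      obtain ⟨h1, h2, h3⟩ := ht0 (t + t0) (Nat.le_add_left _ _)
      have hlog : ∀ k, Real.log (2 * H (t + t0) * ‖ψ (al k : K)‖ ^ n (t + t0)) =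
          Real.log 2 + Real.log (H (t + t0)) + n (t + t0) * a k := by
        intro k
        have hHpos : (0 : ℝ) < H (t + t0) := lt_of_lt_of_le one_pos (hH _)
        rw [Real.log_mul (by positivity) (pow_ne_zero _ (hpos k).ne'),
          Real.log_mul (by norm_num) hHpos.ne', Real.log_pow]
      have hlH : 0 ≤ Real.log (H (t + t0)) := Real.log_nonneg (hH _)
      have hl2 : 0 ≤ Real.log 2 := Real.log_nonneg (by norm_num)
      have hδ1 : δ ≤ 1 := min_le_left _ _
      have hδ2 : δ ≤ γ / (2 * m) := min_le_right _ _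
      refine ⟨?_, ?_, ?_, ?_⟩
      · simp only [Matrix.det_one, Int.cast_one, abs_one, Real.log_one]
        positivity
      · intro l
        have hHpos : (0 : ℝ) < H (t + t0) := lt_of_lt_of_le one_pos (hH _)
        have := hpos l
        positivity
      · intro l
        show |Real.log (2 * H (t + t0) * ‖ψ (al l : K)‖ ^ n (t + t0))| ≤ c * (n (t + t0) : ℝ)
        rw [hlog l]
        calc |Real.log 2 + Real.log (H (t + t0)) + n (t + t0) * a l| ≤
            |Real.log 2 + Real.log (H (t + t0))| + |n (t + t0) * a l| := abs_add_le _ _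
          _ ≤ (δ * n (t + t0) + δ * n (t + t0)) + n (t + t0) * |a l| := by
              rw [abs_mul, abs_of_nonneg (add_nonneg hl2 hlH), abs_of_pos h3]
              linarith
          _ ≤ (1 * n (t + t0) + 1 * n (t + t0)) + n (t + t0) * (c - 2) := by
              have h4 := hac l
              gcongr
          _ = c * n (t + t0) := by ring
      · show ∑ l, Real.log (2 * H (t + t0) * ‖ψ (al l : K)‖ ^ n (t + t0)) +
          γ * (n (t + t0) : ℝ) ≤ Real.log |(((1 : Matrix (Fin m) (Fin m) ℤ).det : ℤ) : ℝ)|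
        simp only [Matrix.det_one, Int.cast_one, abs_one, Real.log_one, hlog]
        rw [Finset.sum_add_distrib, Finset.sum_const, Finset.card_univ, Fintype.card_fin,
          ← Finset.mul_sum, nsmul_eq_mul]
        have h4 : ∑ k, a k = -(2 * γ) := by rw [hγ]; ring
        rw [h4]
        have h5 : (m : ℝ) * (Real.log 2 + Real.log (H (t + t0))) ≤
            m * (γ / (2 * m) * n (t + t0) + γ / (2 * m) * n (t + t0)) := by
          have h6 : δ * n (t + t0) ≤ γ / (2 * m) * n (t + t0) :=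
            mul_le_mul_of_nonneg_right hδ2 h3.le
          gcongr
          · linarith
          · linarith
        have h7 : (m : ℝ) * (γ / (2 * m) * n (t + t0) + γ / (2 * m) * n (t + t0)) =
            γ * n (t + t0) := by
          field_simp
          ring
        rw [h7] at h5
        nlinarith)
    (fun t => z (t + t0)) (fun t => hz _)
    (by
      intro t
      refine ⟨?_, z (t + t0), by simp⟩
      intro l
      set w : ℂ := ψ (∑ j, (N l j : K) * (z (t + t0) j : K)) with hw
      have hw1 : φ (∑ j, N l j * ((z (t + t0) j : ℤ) : 𝓞 K)) = w := by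
        rw [hw, hφ, RingHom.comp_apply, map_sum]
        congr 1
      have hw2 : φ (∑ j, sg cj (N l j) * ((z (t + t0) j : ℤ) : 𝓞 K)) = (starRingEnd ℂ) w := by
        rw [← hw1, ← hφcj, map_sum (sg cj)]
        congr 1
        refine Finset.sum_congr rfl fun j _ => ?_
        rw [map_mul, map_intCast]
      have hwn : ‖w‖ ≤ H (t + t0) * ‖ψ (al l : K)‖ ^ n (t + t0) := hs (t + t0) l
      have h1 : ‖(starRingEnd ℂ) w‖ = ‖w‖ := RCLike.norm_conj w
      show ‖φ (∑ j, R l j * ((z (t + t0) j : ℤ) : 𝓞 K))‖ ≤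
        2 * H (t + t0) * ‖ψ (al l : K)‖ ^ n (t + t0)
      by_cases hl : l ∈ S
      · have h2 : ∑ j, R l j * ((z (t + t0) j : ℤ) : 𝓞 K) =
            ∑ j, N l j * ((z (t + t0) j : ℤ) : 𝓞 K) +
              ∑ j, sg cj (N l j) * ((z (t + t0) j : ℤ) : 𝓞 K) := by
          rw [← Finset.sum_add_distrib]
          refine Finset.sum_congr rfl fun j _ => ?_
          simp only [hR, Matrix.of_apply, hl, if_true]
          ring
        rw [h2, map_add, hw1, hw2]
        calc ‖w + (starRingEnd ℂ) w‖ ≤ ‖w‖ + ‖(starRingEnd ℂ) w‖ := norm_add_le _ _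
          _ = 2 * ‖w‖ := by rw [h1]; ring
          _ ≤ 2 * (H (t + t0) * ‖ψ (al l : K)‖ ^ n (t + t0)) := by gcongr
          _ = _ := by ring
      · have h2 : ∑ j, R l j * ((z (t + t0) j : ℤ) : 𝓞 K) =
            iK * (∑ j, N l j * ((z (t + t0) j : ℤ) : 𝓞 K) -
              ∑ j, sg cj (N l j) * ((z (t + t0) j : ℤ) : 𝓞 K)) := by
          rw [← Finset.sum_sub_distrib, Finset.mul_sum]
          refine Finset.sum_congr rfl fun j _ => ?_
          simp only [hR, Matrix.of_apply, hl, if_false]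
          ring
        have hI : φ iK = Complex.I := hi
        rw [h2, map_mul, map_sub, hw1, hw2, norm_mul, hI, Complex.norm_I, one_mul]
        calc ‖w - (starRingEnd ℂ) w‖ ≤ ‖w‖ + ‖(starRingEnd ℂ) w‖ := norm_sub_le _ _
          _ = 2 * ‖w‖ := by rw [h1]; ring
          _ ≤ 2 * (H (t + t0) * ‖ψ (al l : K)‖ ^ n (t + t0)) := by gcongr
          _ = _ := by ring)
  obtain ⟨y, hy, hfr⟩ := key
  exact ⟨y, hy, hτ.frequently hfr⟩

/-- The core theorem. -/
theorem core [DecidableEq (𝓞 K)] (ψ : K →+* ℂ) (cj : K ≃ₐ[ℚ] K) (hcj : ∀ x, ψ (cj x) = (starRingEnd ℂ) (ψ x))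
    (iK : 𝓞 K) (hi : ψ (iK : K) = Complex.I)
    {d : ℕ} {ι : Type} [Fintype ι] [DecidableEq ι] (M : ι → Fin d → 𝓞 K) (al : ι → 𝓞 K)
    (hal : ∀ i, IsUnit (al i))
    (hinj : ∀ x : Fin d → K, (∀ i, ∑ k, (M i k : K) * x k = 0) → x = 0)
    (hG : ∀ σ : K ≃ₐ[ℚ] K, ∃ π : ι → ι, ∀ i, (∀ k, sg σ (M i k) = M (π i) k) ∧
      sg σ (al i) = al (π i))
    (hnd : ∀ i i', (∃ k : ℕ, 1 ≤ k ∧ al i ^ k = al i' ^ k) → al i = al i')
    (ε : ι → K) (e : Fin d → ℤ) (he : ∀ k, ∑ i, ε i * (M i k : K) = (e k : K))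
    (X : ℕ → Fin d → ℤ) (hX : ∀ t, X t ≠ 0) (h0 : ∀ t, ∑ k, e k * X t k = 0)
    (n : ℕ → ℕ) (H : ℕ → ℝ) (hH : ∀ t, 1 ≤ H t) (hn : Tendsto n atTop atTop)
    (hHn : ∀ δ : ℝ, 0 < δ → ∀ᶠ t in atTop, Real.log (H t) ≤ δ * n t)
    (hs : ∀ t i, ‖ψ (∑ k, (M i k : K) * (X t k : K))‖ ≤ H t * ‖ψ (al i : K)‖ ^ n t) :
    ∃ᶠ t in atTop, ∀ a : 𝓞 K,
      ∑ i with al i = a, ε i * ∑ k, (M i k : K) * (X t k : K) = 0 := by
  classical
  -- a subspace of smallest rank
  obtain ⟨T, hT, hmin⟩ : ∃ T : Submodule ℤ (Fin d → ℤ), (∃ᶠ t in atTop, X t ∈ T) ∧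
      ∀ T' : Submodule ℤ (Fin d → ℤ), (∃ᶠ t in atTop, X t ∈ T') →
        Module.finrank ℤ T ≤ Module.finrank ℤ T' := by
    have hne : ∃ r : ℕ, ∃ T : Submodule ℤ (Fin d → ℤ), (∃ᶠ t in atTop, X t ∈ T) ∧
        Module.finrank ℤ T = r :=
      ⟨_, ⊤, (Eventually.of_forall fun t => Submodule.mem_top).frequently, rfl⟩
    obtain ⟨T, hT, hr⟩ := Nat.find_spec hne
    refine ⟨T, hT, fun T' hT' => ?_⟩
    rw [hr]
    exact Nat.find_min' hne ⟨T', hT', rfl⟩
  have hfun : ∀ f : T →ₗ[ℤ] ℤ, (∃ᶠ t in atTop, ∃ h : X t ∈ T, f ⟨X t, h⟩ = 0) → f = 0 := by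
    intro f hf
    by_contra hne
    have h1 := hmin ((LinearMap.ker f).map T.subtype) (hf.mono (by
      rintro t ⟨h, h2⟩
      exact ⟨⟨X t, h⟩, h2, rfl⟩))
    have h2 := finrank_ker_lt T f hne
    omega
  set m := Module.finrank ℤ T with hm
  set b := Module.finBasis ℤ T with hb
  set V : Fin d → Fin m → ℤ := fun k j => (b j : Fin d → ℤ) k with hV
  set N : Matrix ι (Fin m) (𝓞 K) := Matrix.of fun i j => ∑ k, M i k * ((V k j : ℤ) : 𝓞 K)
    with hN
  have hcoord : ∀ (x : T) k, (x : Fin d → ℤ) k = ∑ j, V k j * b.repr x j := by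
    intro x k
    conv_lhs => rw [← b.sum_repr x]
    simp only [hV, Submodule.coe_sum, Submodule.coe_smul, Finset.sum_apply, Pi.smul_apply,
      smul_eq_mul]
    exact Finset.sum_congr rfl fun j _ => mul_comm _ _
  have hNK : ∀ i j, ((N i j : 𝓞 K) : K) = ∑ k, (M i k : K) * ((V k j : ℤ) : K) := by
    intro i j
    simp only [hN, Matrix.of_apply, RingOfIntegers.coe_eq_algebraMap, map_sum, map_mul,
      map_intCast]
  have hval : ∀ (x : T) i, ∑ k, (M i k : K) * (((x : Fin d → ℤ) k : ℤ) : K) =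
      ∑ j, ((N i j : 𝓞 K) : K) * ((b.repr x j : ℤ) : K) := by
    intro x i
    have h1 : ∀ k, (((x : Fin d → ℤ) k : ℤ) : K) =
        ∑ j, ((V k j : ℤ) : K) * ((b.repr x j : ℤ) : K) := by
      intro k
      rw [hcoord x k]
      push_cast
      rfl
    simp_rw [hNK, h1, Finset.mul_sum, Finset.sum_mul]
    rw [Finset.sum_comm]
    exact Finset.sum_congr rfl fun j _ => Finset.sum_congr rfl fun k _ => by ring
  have heT : ∀ j, ∑ k, e k * V k j = 0 := by
    set f : T →ₗ[ℤ] ℤ := (∑ k, e k • (LinearMap.proj k : (Fin d → ℤ) →ₗ[ℤ] ℤ)) ∘ₗ T.subtype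
      with hf
    have hfx : ∀ x : T, f x = ∑ k, e k * (x : Fin d → ℤ) k := by
      intro x
      simp [hf]
    have h1 : f = 0 := hfun f (hT.mono fun t ht => ⟨ht, by rw [hfx]; exact h0 t⟩)
    intro j
    have h2 := hfx (b j)
    rw [h1] at h2
    simpa using h2.symm
  have hεN : ∀ j, ∑ i, ε i * ((N i j : 𝓞 K) : K) = 0 := by
    intro j
    have h1 : ∑ i, ε i * ((N i j : 𝓞 K) : K) =
        ∑ k, (∑ i, ε i * (M i k : K)) * ((V k j : ℤ) : K) := by
      simp_rw [hNK, Finset.mul_sum, Finset.sum_mul]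
      rw [Finset.sum_comm]
      exact Finset.sum_congr rfl fun j _ => Finset.sum_congr rfl fun k _ => by ring
    rw [h1]
    simp_rw [he]
    have h2 := heT j
    exact_mod_cast congrArg (Int.cast : ℤ → K) h2
  have hker : ∀ y : Fin m → K, (N.map (algebraMap (𝓞 K) K)).mulVec y = 0 → y = 0 := by
    intro y hy
    apply ker_cast (F := K) V
    · intro y hy
      have h1 : ∑ j, y j • b j = 0 := by
        ext k
        simp only [Submodule.coe_sum, Submodule.coe_smul, Finset.sum_apply, Pi.smul_apply,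
          smul_eq_mul, ZeroMemClass.coe_zero, Pi.zero_apply]
        rw [← hy k]
        exact Finset.sum_congr rfl fun j _ => mul_comm _ _
      funext j
      exact (Fintype.linearIndependent_iff.1 b.linearIndependent) y h1 j
    · have h2 : (fun k => ∑ j, ((V k j : ℤ) : K) * y j) = 0 := by
        apply hinj
        intro i
        have h3 : ∑ j, ((N i j : 𝓞 K) : K) * y j = 0 := congrFun hy i
        rw [← h3]
        simp_rw [hNK, Finset.mul_sum, Finset.sum_mul]
        rw [Finset.sum_comm]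
        exact Finset.sum_congr rfl fun j _ => Finset.sum_congr rfl fun k _ => by ring
      exact fun k => congrFun h2 k
  have hdet : ∀ s : Fin m → ι, (((N.submatrix s id).det : 𝓞 K) : K) =
      ((N.map (algebraMap (𝓞 K) K)).submatrix s id).det := by
    intro s
    rw [RingOfIntegers.coe_eq_algebraMap, RingHom.map_det]
    rfl
  have hN0 : ∀ s : Fin m → ι, (N.submatrix s id).det ≠ 0 ↔
      ((N.map (algebraMap (𝓞 K) K)).submatrix s id).det ≠ 0 := by
    intro s
    rw [← hdet, Ne, Ne, RingOfIntegers.coe_eq_zero_iff]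
  obtain ⟨s, hs'⟩ := exists_minor _ hker
  by_cases hcase : ∃ s : Fin m → ι, (N.submatrix s id).det ≠ 0 ∧
      ∏ k, ‖ψ (al (s k) : K)‖ < 1
  · -- the subspace theorem gives a contradiction
    exfalso
    obtain ⟨s, hs1, hs2⟩ := hcase
    obtain ⟨τ, hτ, hτT⟩ := Filter.extraction_of_frequently_atTop hT
    have hm1 : 1 ≤ m := by
      rw [hm, Nat.succ_le_iff, Module.finrank_pos_iff]
      refine ⟨⟨⟨X (τ 0), hτT 0⟩, 0, fun h => hX (τ 0) ?_⟩⟩
      exact congrArg Subtype.val h
    obtain ⟨y, hy, hfr⟩ := small_case ψ cj hcj iK hi hm1 (N.submatrix s id) hs1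
      (fun k => al (s k)) (fun k => (hal _).ne_zero) hs2
      (fun t => fun j => b.repr ⟨X (τ t), hτT t⟩ j) (fun t h => hX (τ t) (by
        have h1 : b.repr ⟨X (τ t), hτT t⟩ = 0 := by
          ext j
          exact congrFun h j
        rw [LinearEquiv.map_eq_zero_iff] at h1
        exact congrArg Subtype.val h1))
      (fun t => n (τ t)) (fun t => H (τ t)) (fun t => hH _) (hn.comp hτ.tendsto_atTop)
      (fun δ hδ => hτ.tendsto_atTop.eventually (hHn δ hδ))
      (by
        intro t k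
        have h1 := hval ⟨X (τ t), hτT t⟩ (s k)
        have h2 := hs (τ t) (s k)
        rw [h1] at h2
        exact h2)
    set f : T →ₗ[ℤ] ℤ := ∑ j, y j • b.coord j with hf
    have hfx : ∀ x : T, f x = ∑ j, y j * b.repr x j := by
      intro x
      simp [hf, LinearMap.sum_apply]
    have h1 : f = 0 := hfun f (hτ.tendsto_atTop.frequently (hfr.mono fun t ht => ⟨hτT t, by
      rw [hfx]
      exact ht⟩))
    apply hy
    funext j
    have h2 := hfx (b j)
    rw [h1] at h2
    simp only [LinearMap.zero_apply, Module.Basis.repr_self] at h2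
    rw [Finset.sum_eq_single j] at h2
    · simpa using h2.symm
    · intro j' _ hj'
      rw [Finsupp.single_eq_of_ne (by tauto), mul_zero]
    · intro h; exact absurd (Finset.mem_univ _) h
  · -- roots of unity
    push Not at hcase
    have hroot : ∀ s : Fin m → ι, (N.submatrix s id).det ≠ 0 →
        ∃ k : ℕ, 1 ≤ k ∧ (∏ j, al (s j)) ^ k = 1 := by
      intro s hs1
      refine kron ψ _ ?_ ?_
      · exact (Finset.univ.prod_induction _ IsUnit (fun _ _ => IsUnit.mul) isUnit_one
          fun j _ => hal (s j))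
      · intro σ
        obtain ⟨π, hπ⟩ := hG σ
        have h1 : (N.submatrix (π ∘ s) id).det ≠ 0 := by
          have h2 : N.submatrix (π ∘ s) id = (N.submatrix s id).map (sg σ) := by
            ext i j
            simp only [Matrix.submatrix_apply, Function.comp_apply, id, Matrix.map_apply, hN,
              Matrix.of_apply, map_sum, map_mul, map_intCast]
            refine Finset.sum_congr rfl fun k _ => ?_
            rw [(hπ (s i)).1 k]
          rw [h2, ← RingHom.mapMatrix_apply, ← RingHom.map_det]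
          intro h3
          rw [map_eq_zero_iff _ (sg_inj σ)] at h3
          exact hs1 h3
        have h2 := hcase _ h1
        rw [map_prod]
        have h3 : ψ ((∏ j, sg σ (al (s j)) : 𝓞 K) : K) = ∏ j, ψ (al (π (s j)) : K) := by
          rw [RingOfIntegers.coe_eq_algebraMap, map_prod, map_prod]
          exact Finset.prod_congr rfl fun j _ => by rw [(hπ (s j)).2]
        rw [h3, norm_prod]
        exact h2
    have hex : ∀ j l, ((N.map (algebraMap (𝓞 K) K)).submatrix (Function.update s j l) id).det ≠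
        0 → al l = al (s j) := by
      intro j l hl
      obtain ⟨k1, hk1, h1⟩ := hroot s ((hN0 s).2 hs')
      obtain ⟨k2, hk2, h2⟩ := hroot _ ((hN0 _).2 hl)
      apply hnd
      refine ⟨k1 * k2, Nat.mul_pos hk1 hk2, ?_⟩
      have h3 : (∏ i, al (Function.update s j l i)) * al (s j) = (∏ i, al (s i)) * al l := by
        have h4 : (fun i => al (Function.update s j l i)) =
            Function.update (fun i => al (s i)) j (al l) := by
          funext i
          by_cases h : i = j
          · subst h; simp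
          · simp [Function.update_of_ne h]
        have h5 : ∏ i, al (Function.update s j l i) =
            al l * ∏ i ∈ Finset.univ \ {j}, al (s i) := by
          rw [show (∏ i, al (Function.update s j l i)) =
            ∏ i, Function.update (fun i => al (s i)) j (al l) i from by rw [← h4],
            Finset.prod_update_of_mem (Finset.mem_univ j)]
        have h6 : ∏ i, al (s i) = al (s j) * ∏ i ∈ Finset.univ \ {j}, al (s i) := by
          rw [← Finset.prod_sdiff (Finset.subset_univ {j}), Finset.prod_singleton, mul_comm]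
        rw [h5, h6]
        ring
      have h7 := congrArg (fun x => x ^ (k1 * k2)) h3
      simp only [mul_pow] at h7
      rw [pow_mul (∏ i, al (s i)), h1, one_pow, mul_comm k1 k2,
        pow_mul (∏ i, al (Function.update s j l i)), h2, one_pow, one_mul, one_mul] at h7
      rw [mul_comm k1 k2]
      exact h7.symm
    refine hT.mono fun t ht a => ?_
    have h1 := exch (N.map (algebraMap (𝓞 K) K)) al s hs' hex ε hεN
      (fun j => ((b.repr ⟨X t, ht⟩ j : ℤ) : K)) a
    rw [← h1]
    refine Finset.sum_congr rfl fun i _ => ?_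
    rw [hval ⟨X t, ht⟩ i]
    rfl

end core

end Pool.Agent.TH717.SK
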