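import Mathlib
import Pool.Agent.H692R2.USS.Basic

/-!
Sequences killed by a power of `E - α`: Taylor expansion, sizes, congruences.
-/

set_option autoImplicit false

open Finset Polynomial

namespace Pool.Agent.TH717.SK

open Pool.Agent.H692R2.USS

section taylor

variable {R : Type*} [CommRing R]

theorem aeval_mul_apply' (p q : R[X]) (u : ℕ → R) :
    aeval (E R) p (aeval (E R) q u) = aeval (E R) (p * q) u := by
  rw [map_mul, Module.End.mul_apply]

theorem taylor (α : R) (v : ℕ → R) (n s : ℕ) :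
    v (n + s) = ∑ i ∈ range (s + 1),
      (s.choose i : R) * α ^ (s - i) * (aeval (E R) ((X - C α) ^ i) v) n := by
  have h1 : (X : R[X]) ^ s = ∑ i ∈ range (s + 1),
      C ((s.choose i : R) * α ^ (s - i)) * (X - C α) ^ i := by
    conv_lhs => rw [show (X : R[X]) = (X - C α) + C α by ring, add_pow]
    refine Finset.sum_congr rfl fun i _ => ?_
    rw [C_mul, C_pow, map_natCast]
    ring
  have h2 : v (n + s) = (aeval (E R) ((X : R[X]) ^ s) v) n := by
    rw [map_pow, aeval_X, E_pow_apply]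
  rw [h2, h1, map_sum, LinearMap.sum_apply, Finset.sum_apply]
  refine Finset.sum_congr rfl fun i _ => ?_
  rw [← aeval_mul_apply', aeval_C]
  rfl

theorem taylor_zero {α : R} {v : ℕ → R} {m : ℕ} (hv : aeval (E R) ((X - C α) ^ m) v = 0)
    {i : ℕ} (hi : m ≤ i) : aeval (E R) ((X - C α) ^ i) v = 0 := by
  obtain ⟨j, rfl⟩ := Nat.exists_eq_add_of_le hi
  rw [pow_add, mul_comm, ← aeval_mul_apply', hv, map_zero]

theorem dvd_fac_choose {d i s : ℕ} (hi : 1 ≤ i) (hid : i ≤ d) : s ∣ d.factorial * s.choose i := by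
  have h1 : i ∣ d.factorial := Nat.dvd_factorial hi hid
  obtain ⟨q, hq⟩ := h1
  obtain ⟨j, rfl⟩ : ∃ j, i = j + 1 := ⟨i - 1, by omega⟩
  rcases s.eq_zero_or_pos with rfl | hs
  · simp
  · obtain ⟨s', rfl⟩ : ∃ s', s = s' + 1 := ⟨s - 1, by omega⟩
    refine ⟨q * s'.choose j, ?_⟩
    rw [hq]
    have := Nat.add_one_mul_choose_eq s' j
    calc (j + 1) * q * (s' + 1).choose (j + 1) = q * ((s' + 1).choose (j + 1) * (j + 1)) := by ring
      _ = q * ((s' + 1) * s'.choose j) := by rw [this]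
      _ = (s' + 1) * (q * s'.choose j) := by ring

theorem congr_taylor {α : R} {v : ℕ → R} {m d : ℕ} (hmd : m ≤ d)
    (hv : aeval (E R) ((X - C α) ^ m) v = 0) (n s : ℕ) :
    ∃ x : R, (d.factorial : R) * (v (n + s) - α ^ s * v n) = (s : R) * x := by
  classical
  have h1 := taylor α v n s
  rw [Finset.sum_range_succ'] at h1
  simp only [Nat.choose_zero_right, Nat.cast_one, one_mul, Nat.sub_zero, pow_zero, map_one,
    Module.End.one_apply] at h1
  rw [h1, add_sub_cancel_right, Finset.mul_sum]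
  have h2 : ∀ i ∈ range s, ∃ x : R, (d.factorial : R) * ((s.choose (i + 1) : R) *
      α ^ (s - (i + 1)) * (aeval (E R) ((X - C α) ^ (i + 1)) v) n) = (s : R) * x := by
    intro i _
    by_cases hi : i + 1 ≤ d
    · obtain ⟨q, hq⟩ := dvd_fac_choose (d := d) (i := i + 1) (s := s) (by omega) hi
      refine ⟨(q : R) * (α ^ (s - (i + 1)) * (aeval (E R) ((X - C α) ^ (i + 1)) v) n), ?_⟩
      have h3 : (d.factorial : R) * (s.choose (i + 1) : R) = (s : R) * (q : R) := by
        exact_mod_cast congrArg (Nat.cast : ℕ → R) hq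
      linear_combination (α ^ (s - (i + 1)) * (aeval (E R) ((X - C α) ^ (i + 1)) v) n) * h3
    · refine ⟨0, ?_⟩
      rw [taylor_zero hv (i := i + 1) (by omega)]
      simp
  choose! x hx using h2
  refine ⟨∑ i ∈ range s, x i, ?_⟩
  rw [Finset.mul_sum]
  exact Finset.sum_congr rfl hx

end taylor

section bound

variable {R : Type*} [CommRing R]

/-- the size of a sequence killed by `(E - α) ^ m` -/
theorem bound (ψ : R →+* ℂ) (P : R[X]) (hP : P.Monic) (q : R[X]) (α : R) (hα : ψ α ≠ 0) (m : ℕ)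
    (hdvd : P ∣ (X - C α) ^ m * q) :
    ∃ B : ℝ, 0 ≤ B ∧ ∀ u : ℕ → R, Ann P u → ∀ A : ℝ, 0 ≤ A →
      (∀ k < P.natDegree, ‖ψ (u k)‖ ≤ A) → ∀ n : ℕ,
      ‖ψ ((aeval (E R) q u) n)‖ ≤ B * A * (n + 1) ^ m * ‖ψ α‖ ^ n := by
  classical
  set r : ℕ → R[X] := fun i => ((X - C α) ^ i * q) %ₘ P with hr
  set b : ℕ → ℝ := fun i => ∑ k ∈ range P.natDegree, ‖ψ ((r i).coeff k)‖ with hb
  have hα' : 0 < ‖ψ α‖ := norm_pos_iff.2 hα
  set g : ℝ := (1 + ‖ψ α‖⁻¹) ^ m with hg
  have hg1 : 1 ≤ 1 + ‖ψ α‖⁻¹ := by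
    have : 0 < ‖ψ α‖⁻¹ := inv_pos.2 hα'
    linarith
  have hb0 : ∀ i, 0 ≤ b i := fun i => Finset.sum_nonneg fun k _ => norm_nonneg _
  refine ⟨g * ∑ i ∈ range m, b i, mul_nonneg (by positivity)
    (Finset.sum_nonneg fun i _ => hb0 i), ?_⟩
  intro u hu A hA hk n
  set v := aeval (E R) q u with hv
  have hvm : aeval (E R) ((X - C α) ^ m) v = 0 := by
    rw [hv, aeval_mul_apply']
    exact hu.of_dvd hdvd
  have hr0 : ∀ i, ‖ψ ((aeval (E R) ((X - C α) ^ i) v) 0)‖ ≤ b i * A := by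
    intro i
    have h1 : (aeval (E R) ((X - C α) ^ i) v) 0 =
        ∑ k ∈ range P.natDegree, (r i).coeff k * u k := by
      rw [hv, aeval_mul_apply']
      have h2 : (X - C α) ^ i * q = r i + ((X - C α) ^ i * q /ₘ P) * P := by
        rw [hr]
        simp only
        rw [mul_comm _ P]
        exact (modByMonic_add_div _ P).symm
      have h3 : aeval (E R) ((X - C α) ^ i * q) u = aeval (E R) (r i) u := by
        rw [h2, map_add, LinearMap.add_apply, ← aeval_mul_apply']
        have : aeval (E R) P u = 0 := hu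
        rw [this, map_zero, add_zero]
      rw [h3]
      by_cases hd : P.natDegree = 0
      · have hP1 : P = 1 := hP.natDegree_eq_zero.1 hd
        have : r i = 0 := by
          rw [hr]
          simp only
          rw [hP1, modByMonic_one]
        rw [this]
        simp
      · rw [aeval_E_apply (r i) u 0 (N := P.natDegree)
          (natDegree_modByMonic_lt _ hP (fun h => hd (by rw [h, natDegree_one])))]
        simp
    rw [h1, map_sum]
    refine (norm_sum_le _ _).trans ?_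
    rw [hb]
    simp only
    rw [Finset.sum_mul]
    refine Finset.sum_le_sum fun k hk' => ?_
    rw [map_mul, norm_mul]
    exact mul_le_mul_of_nonneg_left (hk k (Finset.mem_range.1 hk')) (norm_nonneg _)
  have h1 := taylor α v 0 n
  rw [zero_add] at h1
  rw [h1, map_sum]
  refine (norm_sum_le _ _).trans ?_
  have h2 : ∀ i ∈ range (n + 1), ‖ψ ((n.choose i : R) * α ^ (n - i) *
      (aeval (E R) ((X - C α) ^ i) v) 0)‖ ≤
      if i < m then (n + 1) ^ m * (‖ψ α‖ ^ n * g) * (b i * A) else 0 := by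
    intro i hi
    rw [Finset.mem_range] at hi
    split_ifs with him
    · rw [map_mul, map_mul, norm_mul, norm_mul, map_natCast, map_pow, norm_pow,
        Complex.norm_natCast]
      have h3 : (n.choose i : ℝ) ≤ (n + 1) ^ m := by
        calc (n.choose i : ℝ) ≤ (n : ℝ) ^ i := by exact_mod_cast Nat.choose_le_pow n i
          _ ≤ (n + 1 : ℝ) ^ i := by gcongr; linarith
          _ ≤ (n + 1 : ℝ) ^ m := by
              gcongr
              · linarith [Nat.cast_nonneg (α := ℝ) n]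
      have h4 : ‖ψ α‖ ^ (n - i) ≤ ‖ψ α‖ ^ n * g := by
        have h5 : ‖ψ α‖ ^ n = ‖ψ α‖ ^ (n - i) * ‖ψ α‖ ^ i := by
          rw [← pow_add]
          congr 1
          omega
        have h6 : 1 ≤ ‖ψ α‖ ^ i * g := by
          have h7 : (1 + ‖ψ α‖⁻¹) ^ i ≤ g := by
            rw [hg]
            exact pow_le_pow_right₀ hg1 him.le
          have h8 : (‖ψ α‖⁻¹) ^ i ≤ (1 + ‖ψ α‖⁻¹) ^ i := by
            gcongr
            linarith
          have h9 : ‖ψ α‖ ^ i * (‖ψ α‖⁻¹) ^ i = 1 := by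
            rw [← mul_pow, mul_inv_cancel₀ hα'.ne', one_pow]
          calc (1 : ℝ) = ‖ψ α‖ ^ i * (‖ψ α‖⁻¹) ^ i := h9.symm
            _ ≤ ‖ψ α‖ ^ i * g := by gcongr; exact h8.trans h7
        calc ‖ψ α‖ ^ (n - i) = ‖ψ α‖ ^ (n - i) * 1 := (mul_one _).symm
          _ ≤ ‖ψ α‖ ^ (n - i) * (‖ψ α‖ ^ i * g) := by gcongr
          _ = ‖ψ α‖ ^ n * g := by rw [h5]; ring
      have h10 := hr0 i
      gcongr
    · rw [taylor_zero hvm (not_lt.1 him)]
      simp
  refine (Finset.sum_le_sum h2).trans ?_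
  rw [← Finset.sum_filter]
  have h3 : ∑ i ∈ (range (n + 1)).filter (fun i => i < m),
      (n + 1 : ℝ) ^ m * (‖ψ α‖ ^ n * g) * (b i * A) ≤
      ∑ i ∈ range m, (n + 1 : ℝ) ^ m * (‖ψ α‖ ^ n * g) * (b i * A) := by
    refine Finset.sum_le_sum_of_subset_of_nonneg (fun i hi => ?_) fun i _ _ => ?_
    · rw [Finset.mem_filter] at hi
      exact Finset.mem_range.2 hi.2
    · have := hb0 i
      positivity
  refine h3.trans (le_of_eq ?_)
  rw [← Finset.mul_sum, ← Finset.sum_mul]
  ring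

end bound

/-- divisibility by integers in a ring of integers -/
theorem int_dvd_of_dvd {O : Type} [CommRing O] [IsDomain O] [Module.Free ℤ O]
    [Module.Finite ℤ O] (s z : ℤ) (y : O) (h : ((z : ℤ) : O) = (s : O) * y) :
    s ∣ z := by
  have h1 := congrArg (Algebra.norm ℤ) h
  rw [map_mul] at h1
  have h2 : ∀ a : ℤ, Algebra.norm ℤ ((a : ℤ) : O) = a ^ Module.finrank ℤ O := by
    intro a
    have := Algebra.norm_algebraMap (R := ℤ) (S := O) a
    simpa using this
  rw [h2, h2] at h1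
  have h3 : Module.finrank ℤ O ≠ 0 := Module.finrank_pos.ne'
  have h4 : s ^ Module.finrank ℤ O ∣ z ^ Module.finrank ℤ O := ⟨_, h1⟩
  exact (Int.pow_dvd_pow_iff h3).1 h4

end Pool.Agent.TH717.SK
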