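import Mathlib
import Pool.Agent.TH717.SK.Seq
import Pool.Agent.TH286.GT.GrowD

/-!
The forms `X ^ j * P / (X - α) ^ m` attached to the roots `α` of a polynomial `P`, `j < m`.
-/

set_option autoImplicit false

open Finset Polynomial

namespace Pool.Agent.TH717.SK

open NumberField
open Pool.Agent.H692R2.USS
open Pool.Agent.TH286.GT.GrowD (sg sg_coe sg_inj)

/-- a sequence with given initial values -/
theorem exists_ann {R : Type*} [CommRing R] (g : R[X]) (hg : g.Monic) (x : ℕ → R) :
    ∃ u : ℕ → R, Ann g u ∧ ∀ i < g.natDegree, u i = x i := by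
  classical
  set rec := LinearRecurrence.mk g.natDegree (fun i : Fin g.natDegree => -g.coeff i)
  refine ⟨rec.mkSol (fun i => x i), ?_, ?_⟩
  · rw [ann_iff (Nat.lt_succ_self _)]
    intro n
    rw [Finset.sum_range_succ, hg.coeff_natDegree, one_mul]
    have h := rec.is_sol_mkSol (fun i => x i) n
    simp only [rec] at h ⊢
    rw [h, Finset.sum_range (fun i => g.coeff i * _), ← Finset.sum_add_distrib]
    exact Finset.sum_eq_zero fun i _ => by ring
  · intro i hi
    exact rec.mkSol_eq_init (fun i => x i) ⟨i, hi⟩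

/-- a sequence killed by all the polynomials `P / (X - α) ^ m`, where `P` splits, vanishes -/
theorem ann_coprime {F : Type*} [Field F] (P : F[X]) (hP : P ≠ 0) (hspl : P.Splits)
    (u : ℕ → F) (hu : Ann P u)
    (h : ∀ α, P.IsRoot α → ∃ Q : F[X], Q.eval α ≠ 0 ∧ Ann Q u) (n : ℕ) : u n = 0 := by
  classical
  set J : Ideal F[X] :=
    { carrier := {p | aeval (E F) p u = 0}
      add_mem' := by
        intro a b ha hb
        show aeval (E F) (a + b) u = 0
        have ha' : aeval (E F) a u = 0 := ha
        have hb' : aeval (E F) b u = 0 := hb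
        rw [map_add, LinearMap.add_apply, ha', hb', add_zero]
      zero_mem' := by
        show aeval (E F) (0 : F[X]) u = 0
        rw [map_zero, LinearMap.zero_apply]
      smul_mem' := by
        intro c a ha
        show aeval (E F) (c * a) u = 0
        have ha' : aeval (E F) a u = 0 := ha
        rw [← aeval_mul_apply', ha', map_zero] } with hJ
  have hmem : ∀ p, p ∈ J ↔ aeval (E F) p u = 0 := fun p => Iff.rfl
  set g := Submodule.IsPrincipal.generator J with hg
  have hgdvd : ∀ p, p ∈ J → g ∣ p := fun p hp =>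
    (Submodule.IsPrincipal.mem_iff_generator_dvd J).1 hp
  have hgmem : g ∈ J := Submodule.IsPrincipal.generator_mem J
  have hgP : g ∣ P := hgdvd P hu
  have hdeg : g.degree = 0 := by
    by_contra hd
    obtain ⟨β, hβ⟩ := (hspl.of_dvd hP hgP).exists_eval_eq_zero hd
    have h1 : P.IsRoot β := by
      obtain ⟨r, hr⟩ := hgP
      rw [IsRoot, hr, eval_mul, hβ, zero_mul]
    obtain ⟨Q, hQ, hQu⟩ := h β h1
    obtain ⟨r, hr⟩ := hgdvd Q hQu
    apply hQ
    rw [hr, eval_mul, hβ, zero_mul]
  have hunit : IsUnit g := isUnit_iff_degree_eq_zero.2 hdeg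
  have h1 : (1 : F[X]) ∈ J := by
    have : J = ⊤ := Ideal.eq_top_of_isUnit_mem J hgmem hunit
    rw [this]
    exact Submodule.mem_top
  have h2 : aeval (E F) (1 : F[X]) u = 0 := h1
  rw [map_one, Module.End.one_apply] at h2
  exact congrFun h2 n

section fam

variable {K : Type} [Field K] [NumberField K] [IsGalois ℚ K]

theorem fam (f : ℤ[X]) (hf : f.Monic) (hd : 1 ≤ f.natDegree)
    (hspl : (f.map (algebraMap ℤ (𝓞 K))).Splits) (hf0 : IsUnit (f.coeff 0)) :
    ∃ (ι : Type) (_ : Fintype ι) (_ : DecidableEq ι) (q : ι → (𝓞 K)[X]) (rt : ι → 𝓞 K)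
      (mu : ι → ℕ),
      (∀ i, (q i).natDegree < f.natDegree) ∧
      (∀ i, (f.map (algebraMap ℤ (𝓞 K))).IsRoot (rt i)) ∧
      (∀ i, IsUnit (rt i)) ∧
      (∀ i, f.map (algebraMap ℤ (𝓞 K)) ∣ (X - C (rt i)) ^ mu i * q i) ∧
      (∀ i, mu i ≤ f.natDegree) ∧
      (Squarefree (f.map (Int.castRingHom ℚ)) → ∀ i, mu i ≤ 1) ∧
      (∀ x : Fin f.natDegree → K,
        (∀ i, ∑ k : Fin f.natDegree, ((q i).coeff k : K) * x k = 0) → x = 0) ∧
      (∀ σ : K ≃ₐ[ℚ] K, ∃ π : ι → ι, ∀ i, (q i).map (sg σ) = q (π i) ∧
        sg σ (rt i) = rt (π i)) := by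
  classical
  set d := f.natDegree with hdef
  set P := f.map (algebraMap ℤ (𝓞 K)) with hPdef
  have hPm : P.Monic := hf.map _
  have hPd : P.natDegree = d := hf.natDegree_map _
  have hP0 : P ≠ 0 := hPm.ne_zero
  set Q : 𝓞 K → (𝓞 K)[X] := fun α => P /ₘ (X - C α) ^ P.rootMultiplicity α with hQ
  have hQP : ∀ α, (X - C α) ^ P.rootMultiplicity α * Q α = P := fun α =>
    pow_mul_divByMonic_rootMultiplicity_eq P α
  have hQ0 : ∀ α, Q α ≠ 0 := by
    intro α h
    have := hQP α
    rw [h, mul_zero] at this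
    exact hP0 this.symm
  have hQd : ∀ α, P.rootMultiplicity α + (Q α).natDegree = d := by
    intro α
    rw [← hPd]
    conv_rhs => rw [← hQP α]
    rw [((monic_X_sub_C α).pow _).natDegree_mul' (hQ0 α),
      (monic_X_sub_C α).natDegree_pow, natDegree_X_sub_C, mul_one]
  have hPσ : ∀ σ : K ≃ₐ[ℚ] K, P.map (sg σ) = P := by
    intro σ
    rw [hPdef, Polynomial.map_map]
    congr 1
    exact RingHom.ext_int _ _
  have hmσ : ∀ (σ : K ≃ₐ[ℚ] K) α, P.rootMultiplicity (sg σ α) = P.rootMultiplicity α := by
    intro σ α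
    rw [eq_rootMultiplicity_map (sg_inj σ) α, hPσ σ]
  have hQσ : ∀ (σ : K ≃ₐ[ℚ] K) α, (Q α).map (sg σ) = Q (sg σ α) := by
    intro σ α
    simp only [hQ]
    rw [map_divByMonic _ ((monic_X_sub_C α).pow _), hPσ, Polynomial.map_pow, Polynomial.map_sub,
      map_X, map_C, hmσ]
  set S : Finset (𝓞 K) := P.roots.toFinset with hS
  have hSmem : ∀ α, α ∈ S ↔ P.IsRoot α := by
    intro α
    rw [hS, Multiset.mem_toFinset, mem_roots hP0]
  refine ⟨{α // α ∈ S} × Fin d, inferInstance, inferInstance,
    fun i => if (i.2 : ℕ) < P.rootMultiplicity i.1.1 then X ^ (i.2 : ℕ) * Q i.1.1 else 0,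
    fun i => i.1.1, fun i => P.rootMultiplicity i.1.1, ?_, ?_, ?_, ?_, ?_, ?_, ?_, ?_⟩
  · intro i
    simp only
    split_ifs with h
    · refine lt_of_le_of_lt natDegree_mul_le ?_
      rw [natDegree_X_pow]
      have := hQd i.1.1
      omega
    · rw [natDegree_zero]
      omega
  · intro i
    exact (hSmem _).1 i.1.2
  · intro i
    have h1 : P.IsRoot i.1.1 := (hSmem _).1 i.1.2
    obtain ⟨r, hr⟩ := dvd_iff_isRoot.2 h1
    have h2 : P.coeff 0 = -i.1.1 * r.coeff 0 := by
      rw [hr, mul_coeff_zero]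
      simp
    have h3 : IsUnit (P.coeff 0) := by
      rw [hPdef, coeff_map]
      exact hf0.map _
    rw [h2] at h3
    have h4 := isUnit_of_mul_isUnit_left h3
    exact (IsUnit.neg_iff _).1 h4
  · intro i
    simp only
    split_ifs with h
    · refine ⟨X ^ (i.2 : ℕ), ?_⟩
      rw [mul_left_comm, hQP, mul_comm]
    · simp
  · intro i
    have := hQd i.1.1
    simp only
    omega
  · intro hsq i
    have h1 : (f.map (Int.castRingHom ℚ)).Separable :=
      PerfectField.separable_iff_squarefree.2 hsq
    have h2 : (f.map (algebraMap ℤ K)).Separable := by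
      have := h1.map (f := algebraMap ℚ K)
      rw [Polynomial.map_map] at this
      rwa [show (algebraMap ℤ K) = (algebraMap ℚ K).comp (Int.castRingHom ℚ) from
        RingHom.ext_int _ _]
    simp only
    rw [eq_rootMultiplicity_map (f := algebraMap (𝓞 K) K) RingOfIntegers.coe_injective,
      hPdef, Polynomial.map_map, show (algebraMap (𝓞 K) K).comp (algebraMap ℤ (𝓞 K)) =
        algebraMap ℤ K from RingHom.ext_int _ _]
    exact rootMultiplicity_le_one_of_separable h2 _
  · intro x hx
    set PK := P.map (algebraMap (𝓞 K) K) with hPK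
    have hPKm : PK.Monic := hPm.map _
    have hPKd : PK.natDegree = d := by rw [hPK, hPm.natDegree_map, hPd]
    have hsplK : PK.Splits := hspl.map _
    obtain ⟨u, hu, hux⟩ := exists_ann PK hPKm (fun k => if h : k < d then x ⟨k, h⟩ else 0)
    rw [hPKd] at hux
    have hux' : ∀ k : Fin d, u k = x k := by
      intro k
      rw [hux k k.2]
      simp
    have hzero : ∀ n, u n = 0 := by
      refine ann_coprime PK hPKm.ne_zero hsplK u hu ?_
      intro β hβ
      -- the root is integral
      have hβ' : β ∈ PK.roots := (mem_roots hPKm.ne_zero).2 hβ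
      rw [hPK, hspl.roots_map_of_injective RingOfIntegers.coe_injective] at hβ'
      obtain ⟨α, hα, rfl⟩ := Multiset.mem_map.1 hβ'
      have hαS : α ∈ S := by rw [hS, Multiset.mem_toFinset]; exact hα
      refine ⟨(Q α).map (algebraMap (𝓞 K) K), ?_, ?_⟩
      · rw [eval_map_algebraMap, aeval_algebraMap_apply]
        intro h
        have h1 : (Q α).eval α = 0 := by
          apply RingOfIntegers.coe_injective
          rw [map_zero, ← h]
          simp
        exact eval_divByMonic_pow_rootMultiplicity_ne_zero α hP0 h1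
      · set v := aeval (E K) ((Q α).map (algebraMap (𝓞 K) K)) u with hv
        have hann : Ann ((X - C (α : K)) ^ P.rootMultiplicity α) v := by
          show aeval (E K) ((X - C (α : K)) ^ P.rootMultiplicity α) v = 0
          rw [hv, aeval_mul_apply']
          have h1 : (X - C (α : K)) ^ P.rootMultiplicity α * (Q α).map (algebraMap (𝓞 K) K) =
              PK := by
            rw [hPK]
            conv_rhs => rw [← hQP α]
            rw [Polynomial.map_mul, Polynomial.map_pow, Polynomial.map_sub, map_X, map_C]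
          rw [h1]
          exact hu
        have h0 : ∀ j < P.rootMultiplicity α, v j = 0 := by
          intro j hj
          have hjd : j < d := by
            have := hQd α
            omega
          have h2 := hx (⟨α, hαS⟩, ⟨j, hjd⟩)
          simp only [hj, if_true] at h2
          have h3 : v j = (aeval (E K) ((X ^ j * Q α).map (algebraMap (𝓞 K) K)) u) 0 := by
            rw [Polynomial.map_mul, Polynomial.map_pow, map_X, ← aeval_mul_apply', map_pow,
              aeval_X, E_pow_apply, zero_add]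
          rw [h3, aeval_E_apply _ u 0 (N := d), Finset.sum_range]
          · rw [← h2]
            refine Finset.sum_congr rfl fun k _ => ?_
            rw [zero_add, hux', coeff_map]
          · refine lt_of_le_of_lt natDegree_map_le (lt_of_le_of_lt natDegree_mul_le ?_)
            rw [natDegree_X_pow]
            have := hQd α
            omega
        have h1 := hann.eq_zero ((monic_X_sub_C _).pow _) (by
          rw [(monic_X_sub_C _).natDegree_pow, natDegree_X_sub_C, mul_one]
          exact h0)
        exact funext h1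
    funext k
    rw [← hux' k, hzero]
    rfl
  · intro σ
    refine ⟨fun i => (⟨sg σ i.1.1, ?_⟩, i.2), ?_⟩
    · rw [hSmem]
      have h1 : P.IsRoot i.1.1 := (hSmem _).1 i.1.2
      have h2 := h1.map (f := sg σ)
      rwa [hPσ] at h2
    · intro i
      refine ⟨?_, rfl⟩
      simp only [hmσ]
      split_ifs with h
      · rw [Polynomial.map_mul, Polynomial.map_pow, map_X, hQσ]
      · rw [Polynomial.map_zero]

/-- the first coordinate is a combination of the forms -/
theorem exists_eps {ι : Type} [Fintype ι] {d : ℕ} (hd : 1 ≤ d) (M : ι → Fin d → 𝓞 K)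
    (hinj : ∀ x : Fin d → K, (∀ i, ∑ k, (M i k : K) * x k = 0) → x = 0) :
    ∃ (D : ℤ) (ε : ι → 𝓞 K), D ≠ 0 ∧
      ∀ k : Fin d, ∑ i, ε i * M i k = if (k : ℕ) = 0 then (D : 𝓞 K) else 0 := by
  classical
  set A : (Fin d → K) →ₗ[K] (ι → K) :=
    Matrix.mulVecLin (Matrix.of fun i k => (M i k : K)) with hA
  have hAx : ∀ x i, A x i = ∑ k, (M i k : K) * x k := fun x i => rfl
  have hker : LinearMap.ker A = ⊥ := by
    rw [LinearMap.ker_eq_bot']
    intro x hx
    exact hinj x fun i => by rw [← hAx, hx]; rfl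
  obtain ⟨g, hg⟩ := A.exists_leftInverse_of_injective hker
  set e' : ι → K := fun i => g (Pi.single i 1) ⟨0, hd⟩ with he'
  have h1 : ∀ k : Fin d, ∑ i, e' i * (M i k : K) = if (k : ℕ) = 0 then 1 else 0 := by
    intro k
    have h2 : g (A (Pi.single k 1)) = Pi.single k 1 := by
      rw [← LinearMap.comp_apply, hg]
      rfl
    have h3 : A (Pi.single k 1) = ∑ i, (M i k : K) • (Pi.single i 1 : ι → K) := by
      funext i
      rw [hAx, Finset.sum_apply, Finset.sum_eq_single k, Finset.sum_eq_single i]
      · simp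
      · intro j _ hj
        simp [Pi.single_eq_of_ne hj.symm]
      · intro h; exact absurd (Finset.mem_univ _) h
      · intro j _ hj
        simp [Pi.single_eq_of_ne hj]
      · intro h; exact absurd (Finset.mem_univ _) h
    rw [h3, map_sum] at h2
    have h4 := congrFun h2 ⟨0, hd⟩
    simp only [map_smul, Finset.sum_apply, Pi.smul_apply, smul_eq_mul] at h4
    rw [Finset.sum_congr rfl (fun i _ => mul_comm (e' i) _), h4, Pi.single_apply]
    by_cases hk : (k : ℕ) = 0
    · rw [if_pos hk, if_pos (Fin.ext hk.symm)]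
    · rw [if_neg hk, if_neg (fun h => hk (by rw [← h]))]
  obtain ⟨y, hy0, hy⟩ := exists_integral_multiples ℤ ℚ (Finset.univ.image e')
  have hy' : ∀ i, IsIntegral ℤ (y • e' i) := fun i =>
    hy _ (Finset.mem_image_of_mem _ (Finset.mem_univ i))
  have hex : ∀ i, ∃ z : 𝓞 K, algebraMap (𝓞 K) K z = (y : K) * e' i := fun i =>
    ⟨⟨y • e' i, hy' i⟩, by
      rw [← zsmul_eq_mul]
      rfl⟩
  choose z hz using hex
  refine ⟨y, z, hy0, ?_⟩
  intro k
  apply RingOfIntegers.coe_injective
  rw [map_sum]
  have h5 : ∀ i, algebraMap (𝓞 K) K (z i * M i k) = (y : K) * (e' i * (M i k : K)) := by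
    intro i
    rw [map_mul, hz, mul_assoc]
  rw [Finset.sum_congr rfl fun i _ => h5 i, ← Finset.mul_sum, h1]
  split_ifs
  · rw [mul_one, map_intCast]
  · rw [mul_zero, map_zero]

end fam

end Pool.Agent.TH717.SK
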