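import Mathlib
import Pool.Agent.TH717.SK.Core
import Pool.Agent.TH717.SK.Fam
import Pool.Agent.H692R2.USS.SplitField

/-!
The zeros of the sequences of a fixed reversible recurrence.
-/

set_option autoImplicit false

open Finset Polynomial Filter Topology

namespace Pool.Agent.TH717.SK

open NumberField
open Pool.Agent.H692R2.USS
open Pool.Agent.TH286.GT.GrowD (sg sg_coe sg_inj exists_field exists_exp)

/-- a field containing the roots -/
theorem exists_splitting (f : ℤ[X]) (hf : f.Monic) :
    ∃ K : IntermediateField ℚ ℂ, FiniteDimensional ℚ K ∧ Normal ℚ K ∧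
      (f.map (algebraMap ℤ K)).Splits ∧ Complex.I ∈ K := by
  classical
  obtain ⟨K, hfd, hnorm, hK⟩ := exists_field
    ((f.map (algebraMap ℤ ℂ)).roots.toFinset ∪ {Complex.I}) (by
    intro x hx
    rw [Finset.mem_union, Finset.mem_singleton] at hx
    rcases hx with hx | rfl
    · rw [Multiset.mem_toFinset, mem_roots (hf.map _).ne_zero] at hx
      have h1 : IsIntegral ℤ x := ⟨f, hf, by rwa [IsRoot, eval_map] at hx⟩
      exact (h1.tower_top (A := ℚ)).isAlgebraic
    · exact Complex.isIntegral_rat_I.isAlgebraic)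
  refine ⟨K, hfd, hnorm, ?_, hK _ (Finset.mem_union_right _ (Finset.mem_singleton_self _))⟩
  have hmap : (f.map (algebraMap ℤ K)).map (algebraMap K ℂ) = f.map (algebraMap ℤ ℂ) := by
    rw [Polynomial.map_map]
    congr 1
  refine Polynomial.Splits.of_splits_map_of_injective (i := algebraMap K ℂ)
    (algebraMap K ℂ).injective ?_ ?_
  · rw [hmap]
    exact IsAlgClosed.splits _
  · intro a ha
    rw [hmap] at ha
    exact ⟨⟨a, hK a (Finset.mem_union_left _ (Multiset.mem_toFinset.2 ha))⟩, rfl⟩

/-- subsequences -/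
theorem ann_sub {R : Type*} [CommRing R] (h : R[X]) (L : ℕ) (u : ℕ → R)
    (hu : Ann (expand R L h) u) (r : ℕ) : Ann h (fun j => u (r + L * j)) := by
  unfold Ann at hu
  rw [expand_aeval, aeval_eq_sum_range] at hu
  rw [ann_iff (Nat.lt_succ_self _)]
  intro n
  have h1 := congrFun hu (r + L * n)
  rw [LinearMap.sum_apply, Finset.sum_apply] at h1
  rw [Pi.zero_apply] at h1
  rw [← h1]
  refine Finset.sum_congr rfl fun i _ => ?_
  rw [LinearMap.smul_apply, Pi.smul_apply, ← pow_mul, E_pow_apply, smul_eq_mul]
  congr 2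
  ring

/-- if `u` is killed by the split polynomial `P`, subsequences satisfy a recurrence of the same
order -/
theorem exists_sub {R : Type*} [CommRing R] [IsDomain R] (P : R[X]) (hP : P.Monic)
    (hspl : P.Splits) (L : ℕ) : ∃ h : R[X], h.Monic ∧ h.natDegree = P.natDegree ∧
      ∀ u : ℕ → R, Ann P u → ∀ r, Ann h (fun j => u (r + L * j)) := by
  refine ⟨(P.roots.map (fun a => X - C (a ^ L))).prod, ?_, ?_, ?_⟩
  · exact monic_multiset_prod_of_monic _ _ fun a _ => monic_X_sub_C _
  · rw [natDegree_multiset_prod_of_monic]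
    · rw [Multiset.map_map]
      simp only [Function.comp_apply, natDegree_X_sub_C, Multiset.map_const', Multiset.sum_replicate,
        smul_eq_mul, mul_one]
      exact hspl.natDegree_eq_card_roots.symm
    · intro g hg
      obtain ⟨a, -, rfl⟩ := Multiset.mem_map.1 hg
      exact monic_X_sub_C _
  · intro u hu r
    apply ann_sub
    refine hu.of_dvd ?_
    have h1 : P = (P.roots.map (fun a => X - C a)).prod :=
      hspl.eq_prod_roots_of_monic hP
    rw [map_multiset_prod, Multiset.map_map]
    conv_lhs => rw [h1]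
    apply Multiset.prod_dvd_prod_of_dvd
    intro a _
    simp only [Function.comp_apply, map_sub, expand_X, expand_C]
    rw [C_pow]
    exact sub_dvd_pow_sub_pow _ _ _

end Pool.Agent.TH717.SK
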