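import Mathlib
import Pool.Agent.TH717.SK.Main

/-!
The class sums at the zeros of the sequences of a fixed reversible recurrence.
-/

set_option autoImplicit false

open Finset Polynomial Filter Topology

namespace Pool.Agent.TH717.SK

open NumberField
open Pool.Agent.H692R2.USS
open Pool.Agent.TH286.GT.GrowD (sg sg_coe sg_inj exists_field exists_exp)

theorem class_sum {ι A R : Type} [Fintype ι] [DecidableEq A] [CommRing R] (al : ι → A)
    (w : ι → R) (h : ∀ a, ∑ i with al i = a, w i = 0) (g : A → R) :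
    ∑ i, g (al i) * w i = 0 := by
  classical
  rw [← Finset.sum_fiberwise_of_maps_to (g := al) (t := Finset.univ.image al)
    (fun i _ => Finset.mem_image_of_mem _ (Finset.mem_univ i))]
  refine Finset.sum_eq_zero fun a _ => ?_
  have h1 : ∑ i with al i = a, g (al i) * w i = g a * ∑ i with al i = a, w i := by
    rw [Finset.mul_sum]
    refine Finset.sum_congr rfl fun i hi => ?_
    rw [(Finset.mem_filter.1 hi).2]
  rw [h1, h a, mul_zero]

section data

variable {K : Type} [Field K] [NumberField K]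

/-- the values of the forms -/
noncomputable def vv (q : (𝓞 K)[X]) (u : ℕ → ℤ) (n : ℕ) : 𝓞 K :=
  (aeval (E (𝓞 K)) q (fun n => ((u n : ℤ) : 𝓞 K))) n

theorem ann_cast {f : ℤ[X]} {u : ℕ → ℤ} (hu : Ann f u) :
    Ann (f.map (algebraMap ℤ (𝓞 K))) (fun n => ((u n : ℤ) : 𝓞 K)) :=
  hu.map (algebraMap ℤ (𝓞 K))

theorem vv_eq (q : (𝓞 K)[X]) (u : ℕ → ℤ) (n : ℕ) {d : ℕ} (hq : q.natDegree < d) :
    vv q u n = ∑ k : Fin d, q.coeff k * ((u (n + k) : ℤ) : 𝓞 K) := by
  unfold vv
  rw [aeval_E_apply _ _ _ hq, Finset.sum_range]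

/-- the class sums vanish -/
def CS {ι : Type} [Fintype ι] [DecidableEq (𝓞 K)] (al ε : ι → 𝓞 K) (q : ι → (𝓞 K)[X])
    (u : ℕ → ℤ) (n : ℕ) : Prop :=
  ∀ a, ∑ i with al i = a, ε i * vv (q i) u n = 0

variable {ι : Type} [Fintype ι] [DecidableEq ι] [DecidableEq (𝓞 K)]

/-- the value of the sequence -/
theorem value {f : ℤ[X]} (q : ι → (𝓞 K)[X]) (hq : ∀ i, (q i).natDegree < f.natDegree)
    (D : ℤ) (ε : ι → 𝓞 K) (hε : ∀ k : Fin f.natDegree, ∑ i, ε i * (q i).coeff k =
      if (k : ℕ) = 0 then (D : 𝓞 K) else 0) (hd : 1 ≤ f.natDegree) (u : ℕ → ℤ) (n : ℕ) :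
    ((D * u n : ℤ) : 𝓞 K) = ∑ i, ε i * vv (q i) u n := by
  classical
  have h1 : ∑ i, ε i * vv (q i) u n =
      ∑ k : Fin f.natDegree, (∑ i, ε i * (q i).coeff k) * ((u (n + k) : ℤ) : 𝓞 K) := by
    simp_rw [vv_eq _ u n (hq _), Finset.mul_sum, Finset.sum_mul]
    rw [Finset.sum_comm]
    exact Finset.sum_congr rfl fun k _ => Finset.sum_congr rfl fun i _ => by ring
  rw [h1]
  simp_rw [hε]
  rw [Finset.sum_eq_single ⟨0, hd⟩]
  · simp
  · intro k _ hk
    rw [if_neg, zero_mul]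
    intro h
    exact hk (Fin.ext h)
  · intro h; exact absurd (Finset.mem_univ _) h

/-- the squarefree case: the sequence vanishes on the progression -/
theorem simple_case {f : ℤ[X]} (q : ι → (𝓞 K)[X]) (rt : ι → 𝓞 K)
    (hq : ∀ i, (q i).natDegree < f.natDegree) (hrt : ∀ i, IsUnit (rt i))
    (hdvd : ∀ i, f.map (algebraMap ℤ (𝓞 K)) ∣ (X - C (rt i)) ^ 1 * q i)
    (D : ℤ) (hD : D ≠ 0) (ε : ι → 𝓞 K) (hε : ∀ k : Fin f.natDegree, ∑ i, ε i * (q i).coeff k =
      if (k : ℕ) = 0 then (D : 𝓞 K) else 0) (hd : 1 ≤ f.natDegree) (L : ℕ)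
    (u : ℕ → ℤ) (hu : Ann f u) (n0 : ℕ) (hcs : CS (fun i => rt i ^ L) ε q u n0) (n : ℕ)
    (hn : n ≡ n0 [MOD L]) : u n = 0 := by
  classical
  have hsh : ∀ i m s, vv (q i) u (m + s) = rt i ^ s * vv (q i) u m := by
    intro i m s
    have hv : aeval (E (𝓞 K)) ((X - C (rt i)) ^ 1)
        (aeval (E (𝓞 K)) (q i) (fun n => ((u n : ℤ) : 𝓞 K))) = 0 := by
      rw [aeval_mul_apply']
      exact (ann_cast hu).of_dvd (hdvd i)
    have h1 := taylor (rt i) (aeval (E (𝓞 K)) (q i) (fun n => ((u n : ℤ) : 𝓞 K))) m s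
    unfold vv
    rw [h1, Finset.sum_range_succ', Finset.sum_eq_zero]
    · simp
    · intro j _
      rw [taylor_zero hv (i := j + 1) (by omega)]
      simp
  have hD' : ((D : ℤ) : 𝓞 K) ≠ 0 := by exact_mod_cast hD
  have hval := value q hq D ε hε hd u n
  have hzero : ∑ i, ε i * vv (q i) u n = 0 := by
    rcases le_total n0 n with h | h
    · obtain ⟨k, hk⟩ := (Nat.modEq_iff_dvd' h).1 hn.symm
      have h1 := class_sum (fun i => rt i ^ L) (fun i => ε i * vv (q i) u n0) hcs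
        (fun a => a ^ k)
      rw [← h1]
      refine Finset.sum_congr rfl fun i _ => ?_
      rw [show n = n0 + L * k by omega, hsh, pow_mul]
      ring
    · obtain ⟨k, hk⟩ := (Nat.modEq_iff_dvd' h).1 hn
      have h1 := class_sum (fun i => rt i ^ L) (fun i => ε i * vv (q i) u n0) hcs
        (fun a => Ring.inverse a ^ k)
      rw [← h1]
      refine Finset.sum_congr rfl fun i _ => ?_
      rw [show n0 = n + L * k by omega, hsh, pow_mul]
      have h2 : Ring.inverse (rt i ^ L) ^ k * (rt i ^ L) ^ k = 1 := by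
        rw [← mul_pow, Ring.inverse_mul_cancel _ ((hrt i).pow L), one_pow]
      linear_combination (-(ε i * vv (q i) u n)) * h2
  rw [hzero] at hval
  push_cast at hval
  have h3 := (mul_eq_zero.1 hval).resolve_left hD'
  exact_mod_cast h3

/-- terms are bounded by the initial values -/
theorem term_bound (f : ℤ[X]) (hf : f.Monic) (n : ℕ) : ∃ B : ℝ, 0 ≤ B ∧ ∀ u : ℕ → ℤ, Ann f u →
    ∀ A : ℝ, 0 ≤ A → (∀ k < f.natDegree, |(u k : ℝ)| ≤ A) → |(u n : ℝ)| ≤ B * A := by
  induction n using Nat.strong_induction_on with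
  | _ n ih =>
    by_cases hn : n < f.natDegree
    · exact ⟨1, zero_le_one, fun u _ A _ hk => by rw [one_mul]; exact hk n hn⟩
    · push Not at hn
      obtain ⟨m, rfl⟩ : ∃ m, n = m + f.natDegree := ⟨n - f.natDegree, by omega⟩
      have h1 : ∀ i ∈ range f.natDegree, ∃ B : ℝ, 0 ≤ B ∧ ∀ u : ℕ → ℤ, Ann f u →
          ∀ A : ℝ, 0 ≤ A → (∀ k < f.natDegree, |(u k : ℝ)| ≤ A) →
            |(u (m + i) : ℝ)| ≤ B * A := fun i hi => ih (m + i) (by
        have := Finset.mem_range.1 hi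
        omega)
      choose! B hB0 hB using h1
      refine ⟨∑ i ∈ range f.natDegree, |(f.coeff i : ℝ)| * B i,
        Finset.sum_nonneg fun i hi => mul_nonneg (abs_nonneg _) (hB0 i hi), ?_⟩
      intro u hu A hA hk
      have h2 := (ann_iff (Nat.lt_succ_self _)).1 hu m
      rw [Finset.sum_range_succ, hf.coeff_natDegree, one_mul] at h2
      have h3 : (u (m + f.natDegree) : ℝ) =
          -∑ i ∈ range f.natDegree, (f.coeff i : ℝ) * (u (m + i) : ℝ) := by
        have : u (m + f.natDegree) = -∑ i ∈ range f.natDegree, f.coeff i * u (m + i) := by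
          linarith
        rw [this]
        push_cast
        rfl
      rw [h3, abs_neg, Finset.sum_mul]
      refine (Finset.abs_sum_le_sum_abs _ _).trans (Finset.sum_le_sum fun i hi => ?_)
      rw [abs_mul, mul_assoc]
      exact mul_le_mul_of_nonneg_left (hB i hi u hu A hA hk) (abs_nonneg _)

/-- the general case: the sequence vanishes on the progression unless the zero is small -/
theorem general_case {f : ℤ[X]} (hf : f.Monic) (hd : 1 ≤ f.natDegree)
    (hspl : (f.map (algebraMap ℤ (𝓞 K))).Splits) (q : ι → (𝓞 K)[X]) (rt : ι → 𝓞 K)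
    (mu : ι → ℕ) (hq : ∀ i, (q i).natDegree < f.natDegree) (hrt : ∀ i, IsUnit (rt i))
    (hdvd : ∀ i, f.map (algebraMap ℤ (𝓞 K)) ∣ (X - C (rt i)) ^ mu i * q i)
    (hmu : ∀ i, mu i ≤ f.natDegree)
    (D : ℤ) (hD : D ≠ 0) (ε : ι → 𝓞 K) (hε : ∀ k : Fin f.natDegree, ∑ i, ε i * (q i).coeff k =
      if (k : ℕ) = 0 then (D : 𝓞 K) else 0) (L : ℕ) (hL : 1 ≤ L) :
    ∃ B : ℝ, 0 < B ∧ ∀ u : ℕ → ℤ, Ann f u → ∀ A : ℝ, 1 ≤ A →
      (∀ k < f.natDegree, |(u k : ℝ)| ≤ A) → ∀ n0 : ℕ, CS (fun i => rt i ^ L) ε q u n0 →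
      (n0 : ℝ) ≤ B * A ∨ ∀ n, n ≡ n0 [MOD L] → u n = 0 := by
  classical
  set d := f.natDegree with hdef
  set N0 := L * (d + 1) with hN0
  choose Bn hBn0 hBn using term_bound f hf
  set K2 : ℝ := ∑ n ∈ range N0, Bn n with hK2
  have hK20 : 0 ≤ K2 := Finset.sum_nonneg fun n _ => hBn0 n
  have hsmall : ∀ u : ℕ → ℤ, Ann f u → ∀ A : ℝ, 0 ≤ A → (∀ k < d, |(u k : ℝ)| ≤ A) →
      ∀ n < N0, |(u n : ℝ)| ≤ K2 * A := by
    intro u hu A hA hk n hn
    refine (hBn n u hu A hA hk).trans (mul_le_mul_of_nonneg_right ?_ hA)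
    exact Finset.single_le_sum (f := Bn) (fun i _ => hBn0 i) (Finset.mem_range.2 hn)
  set F : ℝ := (d.factorial : ℝ) * |(D : ℝ)| with hF
  have hF0 : 0 ≤ F := by positivity
  refine ⟨F * K2 + N0 + 1, by positivity, ?_⟩
  intro u hu A hA hk n0 hcs
  by_contra hcon
  push Not at hcon
  obtain ⟨hbig, n1, hn1, hun1⟩ := hcon
  have hA0 : 0 ≤ A := by linarith
  -- the first terms of the progression vanish
  have hN0n0 : N0 < n0 := by
    have h1 : (N0 : ℝ) < n0 := by
      have : 0 ≤ F * K2 * A := by positivity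
      have h2 : (N0 : ℝ) ≤ N0 * A := le_mul_of_one_le_right (Nat.cast_nonneg _) hA
      nlinarith
    exact_mod_cast h1
  set r := n0 % L with hr
  have hrL : r < L := Nat.mod_lt _ hL
  have hfirst : ∀ j < d, u (r + L * j) = 0 := by
    intro j hj
    set n := r + L * j with hn
    have hnN0 : n < N0 := by
      rw [hN0, hn]
      have : L * j ≤ L * (d - 1) := Nat.mul_le_mul_left _ (by omega)
      have h2 : L * (d + 1) = L * (d - 1) + 2 * L := by
        obtain ⟨d', hd'⟩ : ∃ d', d = d' + 1 := ⟨d - 1, by omega⟩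
        rw [hd']
        simp only [Nat.add_sub_cancel]
        ring
      omega
    obtain ⟨k, hk'⟩ : ∃ k, n0 = n + L * k := by
      have h1 : n ≡ n0 [MOD L] := by
        rw [hn, hr]
        unfold Nat.ModEq
        simp
      have h2 : n ≤ n0 := by omega
      obtain ⟨k, hk⟩ := (Nat.modEq_iff_dvd' h2).1 h1
      exact ⟨k, by omega⟩
    set s := L * k with hs
    have hcong : ∀ i, ∃ x : 𝓞 K, (d.factorial : 𝓞 K) *
        (vv (q i) u (n + s) - rt i ^ s * vv (q i) u n) = (s : 𝓞 K) * x := by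
      intro i
      refine congr_taylor (hmu i) ?_ n s
      show aeval (E (𝓞 K)) ((X - C (rt i)) ^ mu i)
        (aeval (E (𝓞 K)) (q i) (fun n => ((u n : ℤ) : 𝓞 K))) = 0
      rw [aeval_mul_apply']
      exact (ann_cast hu).of_dvd (hdvd i)
    choose x hx using hcong
    have hval := value q hq D ε hε hd u n
    -- the class sums at `n0`
    have h1 := class_sum (fun i => rt i ^ L) (fun i => ε i * vv (q i) u n0) hcs
      (fun a => Ring.inverse a ^ k)
    have h2 : ((d.factorial : ℤ) : 𝓞 K) * ((D * u n : ℤ) : 𝓞 K) =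
        ((s : ℤ) : 𝓞 K) * (-∑ i, ε i * Ring.inverse (rt i ^ L) ^ k * x i) := by
      rw [hval]
      have h3 : ∀ i, Ring.inverse (rt i ^ L) ^ k * rt i ^ s = 1 := by
        intro i
        rw [hs, pow_mul, ← mul_pow, Ring.inverse_mul_cancel _ ((hrt i).pow L), one_pow]
      have h4 : (d.factorial : 𝓞 K) * ∑ i, ε i * vv (q i) u n =
          (d.factorial : 𝓞 K) * ∑ i, Ring.inverse (rt i ^ L) ^ k * (ε i * vv (q i) u n0) -
            (s : 𝓞 K) * ∑ i, ε i * Ring.inverse (rt i ^ L) ^ k * x i := by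
        rw [Finset.mul_sum, Finset.mul_sum, Finset.mul_sum, ← Finset.sum_sub_distrib]
        refine Finset.sum_congr rfl fun i _ => ?_
        have h5 := hx i
        rw [← hk'] at h5
        linear_combination (-(ε i * Ring.inverse (rt i ^ L) ^ k)) * h5 -
          (d.factorial : 𝓞 K) * ε i * vv (q i) u n * h3 i
      have h6 : ((d.factorial : ℤ) : 𝓞 K) = (d.factorial : 𝓞 K) := by push_cast; rfl
      have h7 : ((s : ℤ) : 𝓞 K) = (s : 𝓞 K) := by push_cast; rfl
      rw [h6, h7, h4, h1]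
      ring
    rw [← Int.cast_mul] at h2
    have h3 : (s : ℤ) ∣ (d.factorial : ℤ) * (D * u n) := int_dvd_of_dvd _ _ _ h2
    by_contra hne
    have h4 : (d.factorial : ℤ) * (D * u n) ≠ 0 :=
      mul_ne_zero (by exact_mod_cast d.factorial_ne_zero) (mul_ne_zero hD hne)
    have h5 : (s : ℤ) ≤ |(d.factorial : ℤ) * (D * u n)| :=
      Int.le_of_dvd (abs_pos.2 h4) ((dvd_abs _ _).2 h3)
    have h6 : (s : ℝ) ≤ F * |(u n : ℝ)| := by
      have : ((s : ℤ) : ℝ) ≤ ((|(d.factorial : ℤ) * (D * u n)| : ℤ) : ℝ) := by exact_mod_cast h5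
      push_cast at this
      rw [hF]
      rw [abs_mul, abs_mul, Nat.abs_cast] at this
      linarith
    have h7 := hsmall u hu A hA0 hk n hnN0
    have h8 : (n0 : ℝ) ≤ F * (K2 * A) + N0 := by
      have h9 : (n0 : ℝ) = n + s := by
        rw [hk']
        push_cast
        rfl
      have h10 : (n : ℝ) ≤ N0 := by exact_mod_cast hnN0.le
      have h11 : F * |(u n : ℝ)| ≤ F * (K2 * A) := mul_le_mul_of_nonneg_left h7 hF0
      linarith
    have h12 : (N0 : ℝ) ≤ N0 * A := le_mul_of_one_le_right (Nat.cast_nonneg _) hA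
    nlinarith
  -- the progression
  obtain ⟨h, hmon, hdeg, hh⟩ := exists_sub (f.map (algebraMap ℤ (𝓞 K))) (hf.map _) hspl L
  have h1 := hh _ (ann_cast hu) r
  have h2 : ∀ j, ((u (r + L * j) : ℤ) : 𝓞 K) = 0 := by
    refine h1.eq_zero hmon ?_
    rw [hdeg, hf.natDegree_map]
    intro j hj
    have := hfirst j hj
    simp only [this, Int.cast_zero]
  apply hun1
  have h3 : n1 % L = r := hn1
  have h4 := h2 (n1 / L)
  rw [← h3, Nat.mod_add_div] at h4
  exact_mod_cast h4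

/-- a logarithmic estimate -/
theorem log_est (c0 δ : ℝ) (hδ : 0 < δ) (d L : ℕ) (hL : 1 ≤ L) :
    ∃ t0 : ℕ, ∀ t : ℕ, t0 ≤ t → ∀ n : ℕ, ∀ a : ℝ, 0 ≤ a → (t + 1 : ℝ) * (1 + a) < n →
      c0 + a + d * Real.log (n + 1) ≤ δ * ((n / L : ℕ) : ℝ) := by
  have hLR : (0 : ℝ) < L := by exact_mod_cast hL
  set η : ℝ := δ / (4 * L) with hη
  have hη0 : 0 < η := by positivity
  -- `d log (x + 1) ≤ η x`
  have h1 : ∀ᶠ x : ℝ in atTop, (d : ℝ) * Real.log x ≤ η / 2 * x := by
    have h2 := Real.isLittleO_log_id_atTop.bound (c := η / (2 * (d + 1))) (by positivity)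
    filter_upwards [h2, eventually_ge_atTop 1] with x hx hx1
    have h3 : 0 ≤ Real.log x := Real.log_nonneg hx1
    rw [Real.norm_of_nonneg h3, id, Real.norm_of_nonneg (by linarith)] at hx
    calc (d : ℝ) * Real.log x ≤ (d + 1) * Real.log x := by nlinarith
      _ ≤ (d + 1) * (η / (2 * (d + 1)) * x) := by gcongr
      _ = η / 2 * x := by field_simp
  obtain ⟨x0, hx0⟩ := eventually_atTop.1 h1
  obtain ⟨t0, ht0⟩ := exists_nat_gt (max (max x0 1) (max (1 / η) ((c0 + δ) / η + 1)))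
  refine ⟨t0, fun t ht n a ha hn => ?_⟩
  have htR : (t0 : ℝ) ≤ t := by exact_mod_cast ht
  have hm1 : x0 < t := lt_of_le_of_lt ((le_max_left _ _).trans (le_max_left _ _)) (by linarith)
  have hm3 : 1 / η < t := lt_of_le_of_lt ((le_max_left _ _).trans (le_max_right _ _))
    (by linarith)
  have hm4 : (c0 + δ) / η + 1 < t :=
    lt_of_le_of_lt ((le_max_right _ _).trans (le_max_right _ _)) (by linarith)
  have ht00 : (0 : ℝ) ≤ t := Nat.cast_nonneg _
  have hnt : (t : ℝ) + 1 < n := by nlinarith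
  -- `a ≤ η n`
  have ha' : a ≤ η * n := by
    have h2 : 1 ≤ η * t := by
      rw [div_lt_iff₀ hη0] at hm3
      linarith
    have h3 : a * 1 ≤ a * (η * (t + 1)) := by
      apply mul_le_mul_of_nonneg_left _ ha
      nlinarith
    nlinarith
  have hlog : (d : ℝ) * Real.log (n + 1) ≤ η * n := by
    have h2 := hx0 (n + 1) (by linarith)
    nlinarith
  have hc0 : c0 + δ ≤ η * n := by
    have h2 : (c0 + δ) / η < n := by linarith
    rw [div_lt_iff₀ hη0] at h2
    linarith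
  have hfloor : (n : ℝ) < L * (((n / L : ℕ) : ℝ) + 1) := by
    have h2 : n < L * (n / L + 1) := Nat.lt_mul_div_succ n (by omega)
    exact_mod_cast h2
  have h4 : 4 * (η * n) ≤ δ * (((n / L : ℕ) : ℝ) + 1) := by
    have h5 : 4 * (η * n) = δ / L * n := by
      rw [hη]
      field_simp
    rw [h5]
    calc δ / L * n ≤ δ / L * (L * (((n / L : ℕ) : ℝ) + 1)) := by gcongr
      _ = δ * (((n / L : ℕ) : ℝ) + 1) := by field_simp
  nlinarith

variable [IsGalois ℚ K]

/-- at the large zeros the class sums vanish -/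
theorem class_bound (ψ : K →+* ℂ) (cj : K ≃ₐ[ℚ] K)
    (hcj : ∀ x, ψ (cj x) = (starRingEnd ℂ) (ψ x)) (iK : 𝓞 K) (hi : ψ (iK : K) = Complex.I)
    {f : ℤ[X]} (hf : f.Monic) (hd : 1 ≤ f.natDegree) (q : ι → (𝓞 K)[X]) (rt : ι → 𝓞 K)
    (mu : ι → ℕ) (hq : ∀ i, (q i).natDegree < f.natDegree) (hrt : ∀ i, IsUnit (rt i))
    (hdvd : ∀ i, f.map (algebraMap ℤ (𝓞 K)) ∣ (X - C (rt i)) ^ mu i * q i)
    (hmu : ∀ i, mu i ≤ f.natDegree)
    (hinj : ∀ x : Fin f.natDegree → K,
      (∀ i, ∑ k : Fin f.natDegree, ((q i).coeff k : K) * x k = 0) → x = 0)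
    (hG : ∀ σ : K ≃ₐ[ℚ] K, ∃ π : ι → ι, ∀ i, (q i).map (sg σ) = q (π i) ∧
      sg σ (rt i) = rt (π i))
    (D : ℤ) (ε : ι → 𝓞 K) (hε : ∀ k : Fin f.natDegree, ∑ i, ε i * (q i).coeff k =
      if (k : ℕ) = 0 then (D : 𝓞 K) else 0) (L : ℕ) (hL : 1 ≤ L)
    (hnd : ∀ i i', (∃ k : ℕ, 1 ≤ k ∧ (rt i ^ L) ^ k = (rt i' ^ L) ^ k) → rt i ^ L = rt i' ^ L) :
    ∃ B : ℝ, 0 < B ∧ ∀ u : ℕ → ℤ, Ann f u → ∀ A : ℝ, 1 ≤ A →
      (∀ k < f.natDegree, |(u k : ℝ)| ≤ A) → ∀ n : ℕ, u n = 0 →
      (n : ℝ) ≤ B * (1 + Real.log A) ∨ CS (fun i => rt i ^ L) ε q u n := by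
  classical
  set φ : 𝓞 K →+* ℂ := ψ.comp (algebraMap (𝓞 K) K) with hφ
  have hφinj : Function.Injective φ := ψ.injective.comp RingOfIntegers.coe_injective
  have hφrt : ∀ i, φ (rt i) ≠ 0 := fun i h =>
    (hrt i).ne_zero (hφinj (by rw [h, map_zero]))
  -- sizes
  choose Bi hBi0 hBi using fun i => bound φ (f.map (algebraMap ℤ (𝓞 K))) (hf.map _) (q i) (rt i)
    (hφrt i) (mu i) (hdvd i)
  set BB : ℝ := 1 + ∑ i, Bi i with hBB
  have hBB1 : 1 ≤ BB := by
    rw [hBB]
    have : 0 ≤ ∑ i, Bi i := Finset.sum_nonneg fun i _ => hBi0 i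
    linarith
  have hBiB : ∀ i, Bi i ≤ BB := by
    intro i
    rw [hBB]
    have := Finset.single_le_sum (f := Bi) (fun i _ => hBi0 i) (Finset.mem_univ i)
    linarith
  set G : ℝ := 1 + ∑ i, (1 + ‖φ (rt i)‖) ^ L with hG'
  have hG1 : 1 ≤ G := by
    rw [hG']
    have : 0 ≤ ∑ i, (1 + ‖φ (rt i)‖) ^ L := Finset.sum_nonneg fun i _ => by positivity
    linarith
  have hsize : ∀ u : ℕ → ℤ, Ann f u → ∀ A : ℝ, 1 ≤ A → (∀ k < f.natDegree, |(u k : ℝ)| ≤ A) →
      ∀ n i, ‖φ (vv (q i) u n)‖ ≤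
        (BB * A * (n + 1) ^ f.natDegree * G) * ‖φ (rt i ^ L)‖ ^ (n / L) := by
    intro u hu A hA hk n i
    have h1 := hBi i _ (ann_cast hu) A (by linarith) (by
      rw [hf.natDegree_map]
      intro k hk'
      rw [map_intCast, Complex.norm_intCast]
      exact hk k hk') n
    refine h1.trans ?_
    have h2 : ‖φ (rt i)‖ ^ n ≤ G * ‖φ (rt i ^ L)‖ ^ (n / L) := by
      have h3 : ‖φ (rt i)‖ ^ n = ‖φ (rt i)‖ ^ (n % L) * ‖φ (rt i ^ L)‖ ^ (n / L) := by
        rw [map_pow, norm_pow, ← pow_mul, ← pow_add, Nat.mod_add_div]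
      rw [h3]
      apply mul_le_mul_of_nonneg_right _ (by positivity)
      calc ‖φ (rt i)‖ ^ (n % L) ≤ (1 + ‖φ (rt i)‖) ^ (n % L) := by gcongr; linarith
        _ ≤ (1 + ‖φ (rt i)‖) ^ L := by
            apply pow_le_pow_right₀
            · linarith [norm_nonneg (φ (rt i))]
            · exact (Nat.mod_lt _ hL).le
        _ ≤ G := by
            rw [hG']
            have := Finset.single_le_sum (f := fun i => (1 + ‖φ (rt i)‖) ^ L)
              (fun i _ => by positivity) (Finset.mem_univ i)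
            linarith
    have h4 : ((n : ℝ) + 1) ^ mu i ≤ (n + 1) ^ f.natDegree := by
      apply pow_le_pow_right₀ _ (hmu i)
      linarith [Nat.cast_nonneg (α := ℝ) n]
    have hA0 : 0 ≤ A := by linarith
    calc Bi i * A * (n + 1) ^ mu i * ‖φ (rt i)‖ ^ n ≤
        BB * A * (n + 1) ^ f.natDegree * (G * ‖φ (rt i ^ L)‖ ^ (n / L)) := by
          have h5 := hBiB i
          have h6 := hBi0 i
          gcongr
      _ = _ := by ring
  by_contra hcon
  push Not at hcon
  have hcon' : ∀ t : ℕ, ∃ u : ℕ → ℤ, Ann f u ∧ ∃ A : ℝ, 1 ≤ A ∧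
      (∀ k < f.natDegree, |(u k : ℝ)| ≤ A) ∧ ∃ n : ℕ, u n = 0 ∧
        (t + 1 : ℝ) * (1 + Real.log A) < n ∧ ¬ CS (fun i => rt i ^ L) ε q u n := fun t =>
    hcon (t + 1) (by positivity)
  choose u hu A hA hk n hun hn hcs using hcon'
  have hlogA : ∀ t, 0 ≤ Real.log (A t) := fun t => Real.log_nonneg (hA t)
  have hnt : ∀ t, t ≤ n t := by
    intro t
    have h1 : (t : ℝ) ≤ n t := by
      have h2 := hn t
      have h3 := hlogA t
      nlinarith [Nat.cast_nonneg (α := ℝ) t]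
    exact_mod_cast h1
  have hntend : Tendsto n atTop atTop := tendsto_atTop_mono hnt tendsto_id
  have hfr := core ψ cj hcj iK hi (d := f.natDegree) (fun i k => (q i).coeff k)
    (fun i => rt i ^ L) (fun i => (hrt i).pow L) hinj
    (by
      intro σ
      obtain ⟨π, hπ⟩ := hG σ
      refine ⟨π, fun i => ⟨fun k => ?_, ?_⟩⟩
      · rw [← (hπ i).1, coeff_map]
      · rw [map_pow, (hπ i).2])
    hnd (fun i => (ε i : K)) (fun k => if (k : ℕ) = 0 then D else 0)
    (by
      intro k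
      have h1 := congrArg (algebraMap (𝓞 K) K) (hε k)
      rw [map_sum] at h1
      simp only [map_mul] at h1
      rw [h1]
      split_ifs
      · rw [map_intCast]
      · rw [map_zero, Int.cast_zero])
    (fun t k => u t (n t + k))
    (by
      intro t h
      apply hcs t
      intro a
      refine Finset.sum_eq_zero fun i _ => ?_
      rw [vv_eq _ _ _ (hq i), Finset.sum_eq_zero, mul_zero]
      intro k _
      have := congrFun h k
      simp only [Pi.zero_apply] at this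
      rw [this]
      simp)
    (by
      intro t
      rw [Finset.sum_eq_single ⟨0, hd⟩]
      · simp [hun t]
      · intro k _ hk
        rw [if_neg, zero_mul]
        intro h
        exact hk (Fin.ext h)
      · intro h; exact absurd (Finset.mem_univ _) h)
    (fun t => n t / L) (fun t => BB * A t * (n t + 1) ^ f.natDegree * G)
    (by
      intro t
      have h1 : (1 : ℝ) ≤ ((n t : ℝ) + 1) ^ f.natDegree :=
        one_le_pow₀ (by linarith [Nat.cast_nonneg (α := ℝ) (n t)])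
      have h2 := hA t
      have h3 : 1 ≤ BB * A t := by nlinarith
      have h4 : 1 ≤ BB * A t * ((n t : ℝ) + 1) ^ f.natDegree := by nlinarith
      show 1 ≤ BB * A t * ((n t : ℝ) + 1) ^ f.natDegree * G
      nlinarith)
    (by
      have h1 : Tendsto (fun m : ℕ => m / L) atTop atTop := Nat.tendsto_div_const_atTop (by omega)
      exact h1.comp hntend)
    (by
      intro δ hδ
      obtain ⟨t0, ht0⟩ := log_est (Real.log BB + Real.log G) δ hδ f.natDegree L hL
      filter_upwards [eventually_ge_atTop t0] with t ht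
      have h1 := ht0 t ht (n t) (Real.log (A t)) (hlogA t) (hn t)
      have hA0 : A t ≠ 0 := by have := hA t; positivity
      have hBB0 : BB ≠ 0 := by positivity
      have hG0 : G ≠ 0 := by positivity
      have hn0 : ((n t : ℝ) + 1) ^ f.natDegree ≠ 0 := by positivity
      rw [Real.log_mul (mul_ne_zero (mul_ne_zero hBB0 hA0) hn0) hG0,
        Real.log_mul (mul_ne_zero hBB0 hA0) hn0, Real.log_mul hBB0 hA0, Real.log_pow]
      linarith)
    (by
      intro t i
      have h1 := hsize (u t) (hu t) (A t) (hA t) (hk t) (n t) i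
      rw [vv_eq _ _ _ (hq i), hφ, RingHom.comp_apply, map_sum] at h1
      have h2 : ∑ k : Fin f.natDegree, algebraMap (𝓞 K) K ((q i).coeff k *
          ((u t (n t + k) : ℤ) : 𝓞 K)) = ∑ k : Fin f.natDegree, (((q i).coeff k : 𝓞 K) : K) *
            ((u t (n t + k) : ℤ) : K) := by
        refine Finset.sum_congr rfl fun k _ => ?_
        rw [map_mul, map_intCast]
      rw [h2] at h1
      exact h1)
  obtain ⟨t, ht⟩ := hfr.exists
  apply hcs t
  intro a
  apply RingOfIntegers.coe_injective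
  rw [map_zero, ← ht a, map_sum]
  refine Finset.sum_congr rfl fun i _ => ?_
  rw [vv_eq _ _ _ (hq i), map_mul, map_sum]
  congr 1

end data

end Pool.Agent.TH717.SK
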