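import Mathlib
import Pool.Agent.TH717.SK.Zer

/-!
The zeros of the sequences of a fixed reversible recurrence, assembled.
-/

set_option autoImplicit false

open Finset Polynomial Filter Topology

namespace Pool.Agent.TH717.SK

open NumberField
open Pool.Agent.H692R2.USS
open Pool.Agent.TH286.GT.GrowD (sg sg_coe sg_inj exists_field exists_exp)

theorem reversible_zeros (f : ℤ[X]) (hf : f.Monic) (hd : 1 ≤ f.natDegree)
    (h0 : IsUnit (f.coeff 0)) :
    ∃ L : ℕ, 1 ≤ L ∧ ∃ B : ℝ, 0 < B ∧ ∀ u : ℕ → ℤ, Ann f u → ∀ A : ℝ, 1 ≤ A →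
      (∀ k < f.natDegree, |(u k : ℝ)| ≤ A) → ∀ n0 : ℕ, u n0 = 0 →
      (∀ n, n ≡ n0 [MOD L] → u n = 0) ∨ ((n0 : ℝ) ≤ B * A ∧
        (Squarefree (f.map (Int.castRingHom ℚ)) → (n0 : ℝ) ≤ B * (1 + Real.log A))) := by
  classical
  obtain ⟨K, hfd, hnorm, hsplK, hI⟩ := exists_splitting f hf
  have : NumberField K := { to_charZero := inferInstance, to_finiteDimensional := hfd }
  have : IsGalois ℚ K := { to_isSeparable := inferInstance, to_normal := hnorm }
  set ψ : K →+* ℂ := algebraMap K ℂ with hψ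
  set cj : K ≃ₐ[ℚ] K := AlgEquiv.restrictNormal (Complex.conjAe.restrictScalars ℚ) K with hcj
  have hcj' : ∀ x, ψ (cj x) = (starRingEnd ℂ) (ψ x) := fun x =>
    AlgEquiv.restrictNormal_commutes (Complex.conjAe.restrictScalars ℚ) K x
  have hiint : IsIntegral ℤ (⟨Complex.I, hI⟩ : K) := by
    refine IsIntegral.of_pow (n := 2) (by norm_num) ?_
    have h1 : (⟨Complex.I, hI⟩ : K) ^ 2 = -1 := by
      apply Subtype.ext
      show Complex.I ^ 2 = -1
      exact Complex.I_sq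
    rw [h1]
    exact isIntegral_one.neg
  have hspl := Pool.Agent.H692R2.USS.SplitFieldAux.splits_OK K f hf hsplK
  obtain ⟨ι, _, _, q, rt, mu, hq, -, hrt, hdvd, hmu, hsq, hinj, hG⟩ := fam f hf hd hspl h0
  obtain ⟨D, ε, hD, hε⟩ := exists_eps hd (fun i k => (q i).coeff k) hinj
  obtain ⟨L, hL, hLe⟩ := exists_exp (Finset.univ.image rt)
  have hnd : ∀ i i', (∃ k : ℕ, 1 ≤ k ∧ (rt i ^ L) ^ k = (rt i' ^ L) ^ k) →
      rt i ^ L = rt i' ^ L := by
    rintro i i' ⟨k, hk, h⟩
    apply hLe _ (Finset.mem_image_of_mem _ (Finset.mem_univ i)) _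
      (Finset.mem_image_of_mem _ (Finset.mem_univ i'))
    exact ⟨L * k, Nat.mul_pos hL hk, by rw [pow_mul, pow_mul]; exact h⟩
  obtain ⟨B1, hB1, h1⟩ := class_bound ψ cj hcj' ⟨⟨Complex.I, hI⟩, hiint⟩ rfl hf hd q rt mu hq hrt
    hdvd hmu hinj hG D ε hε L hL hnd
  obtain ⟨B2, hB2, h2⟩ := general_case hf hd hspl q rt mu hq hrt hdvd hmu D hD ε hε L hL
  refine ⟨L, hL, B1 + B2, by positivity, ?_⟩
  intro u hu A hA hk n0 hn0
  have hlog : 0 ≤ Real.log A := Real.log_nonneg hA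
  have hlogA : 1 + Real.log A ≤ A := by
    have := Real.log_le_sub_one_of_pos (show 0 < A by linarith)
    linarith
  rcases h1 u hu A hA hk n0 hn0 with h3 | h3
  · right
    refine ⟨?_, fun _ => ?_⟩
    · have h4 : B1 * (1 + Real.log A) ≤ B1 * A := by gcongr
      nlinarith
    · nlinarith
  · rcases h2 u hu A hA hk n0 h3 with h4 | h4
    · by_cases hs : Squarefree (f.map (Int.castRingHom ℚ))
      · left
        intro n hn
        refine simple_case q rt hq hrt (fun i => ?_) D hD ε hε hd L u hu n0 h3 n hn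
        exact (hdvd i).trans (mul_dvd_mul_right (pow_dvd_pow _ (hsq hs i)) _)
      · right
        refine ⟨?_, fun h => absurd h hs⟩
        nlinarith
    · exact Or.inl h4

end Pool.Agent.TH717.SK
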