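import Mathlib
import Pool.Agent.TH717.SK.Gro
import Pool.Agent.TH717.SK.Fin

/-!
The threshold for the nonpositive terms of the ultimately positive sequences of a fixed simple
reversible recurrence.
-/

set_option autoImplicit false

open Finset Polynomial Filter Topology

namespace Pool.Agent.TH717.SK

open NumberField
open Pool.Agent.H692R2.USS
open Pool.Agent.TH286.GT.GrowD (sg sg_coe sg_inj exists_field exists_exp)

/-- powers of unimodular numbers return to one -/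
theorem recur {ι : Type} [Fintype ι] (γ : ι → ℂ) (hγ : ∀ i, ‖γ i‖ = 1) (η : ℝ) (hη : 0 < η)
    (M0 : ℕ) : ∃ m, M0 ≤ m ∧ ∀ i, ‖γ i ^ m - 1‖ < η := by
  classical
  set x : ℕ → ι → ℂ := fun k i => γ i ^ (k * (M0 + 1)) with hx
  have hmem : ∀ k, x k ∈ Metric.closedBall (0 : ι → ℂ) 1 := by
    intro k
    rw [mem_closedBall_zero_iff, pi_norm_le_iff_of_nonneg zero_le_one]
    intro i
    rw [hx]
    simp only
    rw [norm_pow, hγ, one_pow]
  obtain ⟨a, -, θ, hθ, hlim⟩ := (isCompact_closedBall (0 : ι → ℂ) 1).tendsto_subseq hmem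
  have hc := hlim.cauchySeq
  obtain ⟨N, hN⟩ := Metric.cauchySeq_iff.1 hc η hη
  have h1 := hN (N + 1) (by omega) N le_rfl
  have h2 : θ N < θ (N + 1) := hθ (Nat.lt_succ_self N)
  refine ⟨(θ (N + 1) - θ N) * (M0 + 1), ?_, fun i => ?_⟩
  · have : 1 ≤ θ (N + 1) - θ N := by omega
    nlinarith
  · have h3 : ‖x (θ (N + 1)) i - x (θ N) i‖ < η := by
      refine lt_of_le_of_lt ?_ h1
      rw [dist_eq_norm]
      exact norm_le_pi_norm (x (θ (N + 1)) - x (θ N)) i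
    have h4 : x (θ (N + 1)) i - x (θ N) i =
        γ i ^ (θ N * (M0 + 1)) * (γ i ^ ((θ (N + 1) - θ N) * (M0 + 1)) - 1) := by
      rw [hx]
      simp only
      rw [mul_sub, ← pow_add, mul_one]
      congr 2
      rw [← add_mul]
      congr 1
      omega
    rw [h4, norm_mul, norm_pow, hγ, one_pow, one_mul] at h3
    exact h3

/-- a uniform gap -/
theorem exists_gap (S : Finset ℝ) : ∃ δ : ℝ, 0 < δ ∧ ∀ x ∈ S, ∀ y ∈ S, x < y →
    x * Real.exp (2 * δ) ≤ y := by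
  have h1 : ∀ p ∈ S ×ˢ S, ∀ᶠ δ : ℝ in 𝓝[>] 0, p.1 < p.2 → p.1 * Real.exp (2 * δ) < p.2 := by
    intro p _
    by_cases hp : p.1 < p.2
    · have h2 : Tendsto (fun δ : ℝ => p.1 * Real.exp (2 * δ)) (𝓝[>] 0) (𝓝 (p.1 * Real.exp (2 * 0))) :=
        (Continuous.tendsto (by fun_prop) 0).mono_left nhdsWithin_le_nhds
      rw [mul_zero, Real.exp_zero, mul_one] at h2
      filter_upwards [h2.eventually_lt_const hp] with δ hδ _ using hδ
    · exact Eventually.of_forall fun δ h => absurd h hp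
  have h2 := (Filter.eventually_all_finset (S ×ˢ S)).2 h1
  obtain ⟨δ, hδ, hδ0⟩ := (h2.and (self_mem_nhdsWithin : ∀ᶠ δ : ℝ in 𝓝[>] 0, δ ∈ Set.Ioi 0)).exists
  exact ⟨δ, hδ0, fun x hx y hy hxy => (hδ (x, y) (Finset.mk_mem_product hx hy) hxy).le⟩

section data

variable {K : Type} [Field K] [NumberField K]

theorem shift_simple {f : ℤ[X]} (q : (𝓞 K)[X]) (rt : 𝓞 K)
    (hdvd : f.map (algebraMap ℤ (𝓞 K)) ∣ (X - C rt) ^ 1 * q) (u : ℕ → ℤ) (hu : Ann f u)
    (m s : ℕ) : vv q u (m + s) = rt ^ s * vv q u m := by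
  have hv : aeval (E (𝓞 K)) ((X - C rt) ^ 1)
      (aeval (E (𝓞 K)) q (fun n => ((u n : ℤ) : 𝓞 K))) = 0 := by
    rw [aeval_mul_apply']
    exact (ann_cast hu).of_dvd hdvd
  have h1 := taylor rt (aeval (E (𝓞 K)) q (fun n => ((u n : ℤ) : 𝓞 K))) m s
  unfold vv
  rw [h1, Finset.sum_range_succ', Finset.sum_eq_zero]
  · simp
  · intro j _
    rw [taylor_zero hv (i := j + 1) (by omega)]
    simp

variable {ι : Type} [Fintype ι] [DecidableEq ι] [DecidableEq (𝓞 K)]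

variable [IsGalois ℚ K]

theorem threshold_K (ψ : K →+* ℂ) (cj : K ≃ₐ[ℚ] K)
    (hcj : ∀ x, ψ (cj x) = (starRingEnd ℂ) (ψ x)) (iK : 𝓞 K) (hi : ψ (iK : K) = Complex.I)
    {f : ℤ[X]} (hf : f.Monic) (hd : 1 ≤ f.natDegree) (q : ι → (𝓞 K)[X]) (rt : ι → 𝓞 K)
    (hq : ∀ i, (q i).natDegree < f.natDegree) (hrt : ∀ i, IsUnit (rt i))
    (hdvd : ∀ i, f.map (algebraMap ℤ (𝓞 K)) ∣ (X - C (rt i)) ^ 1 * q i)
    (hinj : ∀ x : Fin f.natDegree → K,
      (∀ i, ∑ k : Fin f.natDegree, ((q i).coeff k : K) * x k = 0) → x = 0)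
    (hG : ∀ σ : K ≃ₐ[ℚ] K, ∃ π : ι → ι, ∀ i, (q i).map (sg σ) = q (π i) ∧
      sg σ (rt i) = rt (π i))
    (L : ℕ) (hL : 1 ≤ L)
    (hnd : ∀ i i', (∃ k : ℕ, 1 ≤ k ∧ (rt i ^ L) ^ k = (rt i' ^ L) ^ k) →
      rt i ^ L = rt i' ^ L) :
    ∃ B : ℝ, 0 < B ∧ ∀ u : ℕ → ℤ, Ann f u → ∀ A : ℝ, 1 ≤ A →
      (∀ k < f.natDegree, |(u k : ℝ)| ≤ A) → (∃ N : ℕ, ∀ n, N ≤ n → 0 < u n) →
      ∀ n : ℕ, u n ≤ 0 → (n : ℝ) ≤ B * (1 + Real.log A) := by
  classical
  obtain ⟨D0, ε0, hD0, hε0⟩ := exists_eps hd (fun i k => (q i).coeff k) hinj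
  obtain ⟨π, hπ⟩ := hG cj
  obtain ⟨D, ε, hD, hε, hreal⟩ := exists_real ψ cj hcj q rt π hπ D0 hD0 ε0 hε0
  set φ : 𝓞 K →+* ℂ := ψ.comp (algebraMap (𝓞 K) K) with hφ
  have hφψ : ∀ x : 𝓞 K, ψ (x : K) = φ x := fun x => rfl
  have hφinj : Function.Injective φ := ψ.injective.comp RingOfIntegers.coe_injective
  have hφrt : ∀ i, φ (rt i) ≠ 0 := fun i h =>
    (hrt i).ne_zero (hφinj (by rw [h, map_zero]))
  set r : ι → ℝ := fun i => ‖φ (rt i)‖ with hr
  have hr0 : ∀ i, 0 < r i := fun i => norm_pos_iff.2 (hφrt i)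
  -- sizes
  choose Bi hBi0 hBi using fun i => bound φ (f.map (algebraMap ℤ (𝓞 K))) (hf.map _) (q i) (rt i)
    (hφrt i) 1 (hdvd i)
  set Rs : Finset ℝ := Finset.univ.image r with hRs
  have hRspos : ∀ ρ ∈ Rs, 0 < ρ := by
    intro ρ hρ
    obtain ⟨i, -, rfl⟩ := Finset.mem_image.1 hρ
    exact hr0 i
  obtain ⟨δ, hδ, hgap⟩ := exists_gap Rs
  set C0 : ℝ := 1 + ∑ i, ‖φ (ε i)‖ * Bi i with hC0
  have hC01 : 1 ≤ C0 := by
    have : 0 ≤ ∑ i, ‖φ (ε i)‖ * Bi i :=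
      Finset.sum_nonneg fun i _ => mul_nonneg (norm_nonneg _) (hBi0 i)
    rw [hC0]
    linarith
  have hlogC0 : 0 ≤ Real.log C0 := Real.log_nonneg hC01
  -- the bounds for the parts
  have hpb : ∀ ρ ∈ Rs, ∃ B : ℝ, 0 < B ∧ ∀ u : ℕ → ℤ, Ann f u → ∀ A : ℝ, 1 ≤ A →
      (∀ k < f.natDegree, |(u k : ℝ)| ≤ A) → ∀ n : ℕ,
      ‖ψ ((∑ i with ‖ψ (rt i : K)‖ = ρ, ε i * vv (q i) u n : 𝓞 K) : K)‖ ≤
        (Real.exp (-δ) * ρ) ^ n →
      (n : ℝ) ≤ B * (1 + Real.log A) ∨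
        CS (fun i => rt i ^ L) (fun i => if ‖ψ (rt i : K)‖ = ρ then ε i else 0) q u n :=
    fun ρ hρ => part_bound ψ cj hcj iK hi hf hd q rt (fun _ => 1) hq hrt hdvd (fun _ => hd) hinj
      hG ε L hL hnd ρ (hRspos ρ hρ) δ hδ
  choose! Bp hBp0 hBp using hpb
  set B : ℝ := ∑ ρ ∈ Rs, Bp ρ + (Real.log C0 + 1) / δ with hB
  have hBp' : ∀ ρ ∈ Rs, Bp ρ ≤ B := by
    intro ρ hρ
    have h1 := Finset.single_le_sum (f := Bp) (fun ρ hρ => (hBp0 ρ hρ).le) hρ
    have h2 : 0 ≤ (Real.log C0 + 1) / δ := by positivity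
    rw [hB]
    linarith
  have hB2 : (Real.log C0 + 1) / δ ≤ B := by
    have : 0 ≤ ∑ ρ ∈ Rs, Bp ρ := Finset.sum_nonneg fun ρ hρ => (hBp0 ρ hρ).le
    rw [hB]
    linarith
  have hBpos : 0 < B := lt_of_lt_of_le (by positivity) hB2
  refine ⟨B, hBpos, ?_⟩
  intro u hu A hA hk hult n1 hn1
  by_contra hcon
  push Not at hcon
  have hA0 : 0 < A := by linarith
  have hlogA : 0 ≤ Real.log A := Real.log_nonneg hA
  -- the parts
  set lam : ℝ → ℕ → 𝓞 K := fun ρ n => ∑ i with ‖ψ (rt i : K)‖ = ρ, ε i * vv (q i) u n with hlam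
  set CR : ℝ → Prop := fun ρ =>
    CS (fun i => rt i ^ L) (fun i => if ‖ψ (rt i : K)‖ = ρ then ε i else 0) q u n1 with hCR
  have hpart : ∀ ρ ∈ Rs, ¬ CR ρ → (Real.exp (-δ) * ρ) ^ n1 < ‖φ (lam ρ n1)‖ := by
    intro ρ hρ hcr
    by_contra h
    push Not at h
    rcases hBp ρ hρ u hu A hA hk n1 h with h1 | h1
    · have h2 := hBp' ρ hρ
      have h3 : Bp ρ * (1 + Real.log A) ≤ B * (1 + Real.log A) :=
        mul_le_mul_of_nonneg_right h2 (by linarith)
      linarith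
    · exact hcr h1
  have hsh : ∀ i m s, vv (q i) u (m + s) = rt i ^ s * vv (q i) u m := fun i m s =>
    shift_simple (q i) (rt i) (hdvd i) u hu m s
  -- decomposition
  have hdec : ∀ n, ((D * u n : ℤ) : ℂ) = ∑ ρ ∈ Rs, φ (lam ρ n) := by
    intro n
    have h1 := value q hq D ε hε hd u n
    have h2 := congrArg φ h1
    rw [map_intCast] at h2
    rw [h2, ← Finset.sum_fiberwise_of_maps_to (g := r) (t := Rs)
      (fun i _ => Finset.mem_image_of_mem _ (Finset.mem_univ i)), map_sum]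
    rfl
  have hzero : ∀ ρ, CR ρ → ∀ m, lam ρ (n1 + L * m) = 0 := by
    intro ρ hcr m
    have h1 := class_sum (fun i => rt i ^ L)
      (fun i => (if ‖ψ (rt i : K)‖ = ρ then ε i else 0) * vv (q i) u n1) hcr (fun a => a ^ m)
    rw [hlam]
    simp only
    rw [Finset.sum_filter]
    refine Eq.trans ?_ h1
    refine Finset.sum_congr rfl fun i _ => ?_
    rw [hsh, pow_mul]
    split_ifs <;> ring
  -- the size of the parts
  have hvs : ∀ i n, ‖φ (vv (q i) u n)‖ ≤ Bi i * A * r i ^ n := by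
    intro i n
    have h1 := hBi i _ (ann_cast hu) A hA0.le (by
      rw [hf.natDegree_map]
      intro k hk'
      rw [map_intCast, Complex.norm_intCast]
      exact hk k hk') 0
    have h2 := hsh i 0 n
    rw [zero_add] at h2
    rw [h2, map_mul, map_pow, norm_mul, norm_pow]
    have h3 : ‖φ (vv (q i) u 0)‖ ≤ Bi i * A := by
      refine h1.trans (le_of_eq ?_)
      simp
    calc ‖φ (rt i)‖ ^ n * ‖φ (vv (q i) u 0)‖ ≤ r i ^ n * (Bi i * A) := by
          rw [hr]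
          gcongr
      _ = _ := by ring
  have hlamsize : ∀ ρ n, ‖φ (lam ρ n)‖ ≤ (∑ i with r i = ρ, ‖φ (ε i)‖ * Bi i) * A * ρ ^ n := by
    intro ρ n
    rw [hlam]
    simp only
    rw [map_sum]
    refine (norm_sum_le _ _).trans ?_
    rw [Finset.sum_mul, Finset.sum_mul]
    refine Finset.sum_le_sum fun i hi' => ?_
    rw [map_mul, norm_mul]
    have h1 := hvs i n
    have h2 : r i = ρ := (Finset.mem_filter.1 hi').2
    rw [h2] at h1
    calc ‖φ (ε i)‖ * ‖φ (vv (q i) u n)‖ ≤ ‖φ (ε i)‖ * (Bi i * A * ρ ^ n) := by gcongr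
      _ = _ := by ring
  -- the case in which all class sums vanish
  by_cases hF : ∀ ρ ∈ Rs, CR ρ
  · obtain ⟨N, hN⟩ := hult
    have h1 := hdec (n1 + L * N)
    rw [Finset.sum_eq_zero (fun ρ hρ => by rw [hzero ρ (hF ρ hρ), map_zero])] at h1
    have h2 : D * u (n1 + L * N) = 0 := by exact_mod_cast h1
    have h3 := hN (n1 + L * N) (by nlinarith)
    have h4 : 0 < D * u (n1 + L * N) := mul_pos hD h3
    omega
  push Not at hF
  set F : Finset ℝ := Rs.filter (fun ρ => ¬ CR ρ) with hFdef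
  have hFne : F.Nonempty := by
    obtain ⟨ρ, h1, h2⟩ := hF
    exact ⟨ρ, Finset.mem_filter.2 ⟨h1, h2⟩⟩
  set ρ := F.max' hFne with hρdef
  have hρF : ρ ∈ F := F.max'_mem hFne
  have hρRs : ρ ∈ Rs := (Finset.mem_filter.1 hρF).1
  have hρn : ¬ CR ρ := (Finset.mem_filter.1 hρF).2
  have hρ0 : 0 < ρ := hRspos ρ hρRs
  have hbig : ∀ ρ' ∈ Rs, ρ < ρ' → CR ρ' := by
    intro ρ' h1 h2
    by_contra h3
    exact absurd (F.le_max' ρ' (Finset.mem_filter.2 ⟨h1, h3⟩)) (not_le.2 h2)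
  -- the rest
  set κ : ℝ := Real.exp (-(2 * δ)) * ρ with hκ
  have hκ0 : 0 < κ := by positivity
  set rest : ℕ → ℂ := fun n => ∑ ρ' ∈ Rs.erase ρ, φ (lam ρ' n) with hrest
  have hdec2 : ∀ n, ((D * u n : ℤ) : ℂ) = φ (lam ρ n) + rest n := by
    intro n
    rw [hdec n, ← Finset.add_sum_erase _ _ hρRs]
  have hrestb : ∀ m, ‖rest (n1 + L * m)‖ ≤ C0 * A * κ ^ (n1 + L * m) := by
    intro m
    rw [hrest]
    simp only
    refine (norm_sum_le _ _).trans ?_
    have h1 : ∀ ρ' ∈ Rs.erase ρ, ‖φ (lam ρ' (n1 + L * m))‖ ≤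
        (∑ i with r i = ρ', ‖φ (ε i)‖ * Bi i) * (A * κ ^ (n1 + L * m)) := by
      intro ρ' hρ'
      rw [Finset.mem_erase] at hρ'
      have hs0 : 0 ≤ ∑ i with r i = ρ', ‖φ (ε i)‖ * Bi i :=
        Finset.sum_nonneg fun i _ => mul_nonneg (norm_nonneg _) (hBi0 i)
      rcases lt_or_gt_of_ne hρ'.1 with h2 | h2
      · have h3 := hgap ρ' hρ'.2 ρ hρRs h2
        have h4 : ρ' ≤ κ := by
          have h5 : ρ' = Real.exp (-(2 * δ)) * (ρ' * Real.exp (2 * δ)) := by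
            rw [mul_left_comm, ← Real.exp_add]
            simp
          rw [h5, hκ]
          gcongr
        have h6 := hRspos ρ' hρ'.2
        calc ‖φ (lam ρ' (n1 + L * m))‖ ≤
            (∑ i with r i = ρ', ‖φ (ε i)‖ * Bi i) * A * ρ' ^ (n1 + L * m) := hlamsize _ _
          _ ≤ (∑ i with r i = ρ', ‖φ (ε i)‖ * Bi i) * A * κ ^ (n1 + L * m) := by gcongr
          _ = _ := by ring
      · rw [hzero ρ' (hbig ρ' hρ'.2 h2), map_zero, norm_zero]
        positivity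
    refine (Finset.sum_le_sum h1).trans ?_
    rw [← Finset.sum_mul]
    have h2 : ∑ ρ' ∈ Rs.erase ρ, ∑ i with r i = ρ', ‖φ (ε i)‖ * Bi i ≤ C0 := by
      calc ∑ ρ' ∈ Rs.erase ρ, ∑ i with r i = ρ', ‖φ (ε i)‖ * Bi i ≤
          ∑ ρ' ∈ Rs, ∑ i with r i = ρ', ‖φ (ε i)‖ * Bi i := by
            refine Finset.sum_le_sum_of_subset_of_nonneg (Finset.erase_subset _ _) fun ρ' _ _ => ?_
            exact Finset.sum_nonneg fun i _ => mul_nonneg (norm_nonneg _) (hBi0 i)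
        _ = ∑ i, ‖φ (ε i)‖ * Bi i :=
            Finset.sum_fiberwise_of_maps_to
              (fun i _ => Finset.mem_image_of_mem _ (Finset.mem_univ i)) _
        _ ≤ C0 := by rw [hC0]; linarith
    calc _ ≤ C0 * (A * κ ^ (n1 + L * m)) := by gcongr
      _ = _ := by ring
  -- the leading part at `n1`
  set x : ℝ := (φ (lam ρ n1)).re with hx
  have hxeq : φ (lam ρ n1) = (x : ℂ) := by
    apply Complex.ext
    · rw [Complex.ofReal_re]
    · rw [Complex.ofReal_im]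
      exact hreal ρ u n1
  have hxabs : (Real.exp (-δ) * ρ) ^ n1 < |x| := by
    have h1 := hpart ρ hρRs hρn
    rw [hxeq, Complex.norm_real, Real.norm_eq_abs] at h1
    exact h1
  have hsmall : C0 * A * κ ^ n1 < |x| := by
    refine lt_of_le_of_lt ?_ hxabs
    have h1 : κ ^ n1 = Real.exp (-(δ * n1)) * (Real.exp (-δ) * ρ) ^ n1 := by
      rw [hκ, mul_pow, mul_pow, ← Real.exp_nat_mul, ← Real.exp_nat_mul, ← mul_assoc,
        ← Real.exp_add]
      congr 2
      ring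
    rw [h1, ← mul_assoc]
    have h2 : C0 * A * Real.exp (-(δ * n1)) ≤ 1 := by
      have h3 : C0 * A = Real.exp (Real.log C0 + Real.log A) := by
        rw [Real.exp_add, Real.exp_log (by linarith), Real.exp_log hA0]
      rw [h3, ← Real.exp_add, Real.exp_le_one_iff]
      have h4 : (Real.log C0 + 1) / δ * (1 + Real.log A) < n1 := by
        refine lt_of_le_of_lt ?_ hcon
        exact mul_le_mul_of_nonneg_right hB2 (by linarith)
      have h5 : (Real.log C0 + 1) * (1 + Real.log A) < δ * n1 := by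
        rw [div_mul_eq_mul_div, div_lt_iff₀ hδ] at h4
        linarith
      nlinarith
    have h6 : 0 ≤ (Real.exp (-δ) * ρ) ^ n1 := by positivity
    calc C0 * A * Real.exp (-(δ * n1)) * (Real.exp (-δ) * ρ) ^ n1 ≤
        1 * (Real.exp (-δ) * ρ) ^ n1 := by gcongr
      _ = _ := one_mul _
  have hre : ∀ n, ((D * u n : ℤ) : ℝ) = (φ (lam ρ n)).re + (rest n).re := by
    intro n
    have h1 := congrArg Complex.re (hdec2 n)
    rw [Complex.add_re] at h1
    rw [← h1]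
    simp
  have hxneg : x < 0 := by
    have h1 := hre n1
    have h2 := hrestb 0
    rw [mul_zero, add_zero] at h2
    have h3 : |(rest n1).re| ≤ ‖rest n1‖ := Complex.abs_re_le_norm _
    have h4 : ((D * u n1 : ℤ) : ℝ) ≤ 0 := by
      have : D * u n1 ≤ 0 := mul_nonpos_of_nonneg_of_nonpos hD.le hn1
      exact_mod_cast this
    by_contra hx0
    push Not at hx0
    rw [abs_of_nonneg hx0] at hsmall
    have h5 := neg_abs_le (rest n1).re
    linarith
  -- recurrence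
  rw [abs_of_neg hxneg] at hsmall
  set Z : ℝ := ∑ i, ‖φ (ε i * vv (q i) u n1)‖ with hZ
  have hZ0 : 0 ≤ Z := Finset.sum_nonneg fun i _ => norm_nonneg _
  obtain ⟨N, hN⟩ := hult
  have hdecay : ∃ M1 : ℕ, ∀ m, M1 ≤ m → (Real.exp (-(2 * δ))) ^ (L * m) ≤ 1 / 2 := by
    have h1 : Real.exp (-(2 * δ)) < 1 := Real.exp_lt_one_iff.2 (by linarith)
    obtain ⟨M1, hM1⟩ := exists_pow_lt_of_lt_one (show (0 : ℝ) < 1 / 2 by norm_num) h1
    refine ⟨M1, fun m hm => ?_⟩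
    refine le_trans ?_ hM1.le
    exact pow_le_pow_of_le_one (Real.exp_pos _).le h1.le (by nlinarith)
  obtain ⟨M1, hM1⟩ := hdecay
  obtain ⟨m, hm, hγ⟩ := recur (fun i => if r i = ρ then φ (rt i) ^ L / (ρ : ℂ) ^ L else 1)
    (by
      intro i
      split_ifs with h
      · rw [norm_div, norm_pow, norm_pow, Complex.norm_real, Real.norm_eq_abs, abs_of_pos hρ0]
        have : ‖φ (rt i)‖ = ρ := h
        rw [this]
        exact div_self (by positivity)
      · simp) (-x / (4 * (Z + 1))) (by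
        apply div_pos (by linarith)
        linarith) (max N M1)
  have hρC : (ρ : ℂ) ≠ 0 := by exact_mod_cast hρ0.ne'
  have hlead : (φ (lam ρ (n1 + L * m))).re ≤ ρ ^ (L * m) * (3 / 4 * x) := by
    have h1 : φ (lam ρ (n1 + L * m)) = (ρ : ℂ) ^ (L * m) * (φ (lam ρ n1) +
        ∑ i with r i = ρ, φ (ε i * vv (q i) u n1) *
          ((φ (rt i) ^ L / (ρ : ℂ) ^ L) ^ m - 1)) := by
      rw [hlam]
      simp only
      have h2 : ∀ i, ‖ψ (rt i : K)‖ = r i := fun i => rfl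
      simp_rw [h2]
      rw [map_sum, map_sum, ← Finset.sum_add_distrib, Finset.mul_sum]
      refine Finset.sum_congr rfl fun i _ => ?_
      rw [hsh, map_mul, map_mul, map_pow, map_mul, div_pow, ← pow_mul, ← pow_mul]
      field_simp
      ring
    have h2 : ‖∑ i with r i = ρ, φ (ε i * vv (q i) u n1) *
        ((φ (rt i) ^ L / (ρ : ℂ) ^ L) ^ m - 1)‖ ≤ -x / 4 := by
      refine (norm_sum_le _ _).trans ?_
      calc ∑ i with r i = ρ, ‖φ (ε i * vv (q i) u n1) * ((φ (rt i) ^ L / (ρ : ℂ) ^ L) ^ m - 1)‖ ≤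
          ∑ i with r i = ρ, ‖φ (ε i * vv (q i) u n1)‖ * (-x / (4 * (Z + 1))) := by
            refine Finset.sum_le_sum fun i hi' => ?_
            rw [norm_mul]
            have h3 := hγ i
            rw [if_pos (Finset.mem_filter.1 hi').2] at h3
            gcongr
        _ ≤ ∑ i, ‖φ (ε i * vv (q i) u n1)‖ * (-x / (4 * (Z + 1))) := by
            refine Finset.sum_le_sum_of_subset_of_nonneg (Finset.filter_subset _ _)
              fun i _ _ => ?_
            have : 0 ≤ -x / (4 * (Z + 1)) := div_nonneg (by linarith) (by linarith)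
            positivity
        _ = Z * (-x / (4 * (Z + 1))) := by rw [← Finset.sum_mul]
        _ ≤ -x / 4 := by
            rw [mul_div_assoc', div_le_div_iff₀ (by positivity) (by norm_num)]
            nlinarith
    rw [h1, hxeq]
    have h4 : ((ρ : ℂ) ^ (L * m) * ((x : ℂ) + ∑ i with r i = ρ, φ (ε i * vv (q i) u n1) *
        ((φ (rt i) ^ L / (ρ : ℂ) ^ L) ^ m - 1))).re = ρ ^ (L * m) * (x + (∑ i with r i = ρ,
          φ (ε i * vv (q i) u n1) * ((φ (rt i) ^ L / (ρ : ℂ) ^ L) ^ m - 1)).re) := by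
      rw [← Complex.ofReal_pow, Complex.re_ofReal_mul, Complex.add_re, Complex.ofReal_re]
    rw [h4]
    have h5 := (Complex.re_le_norm (∑ i with r i = ρ,
          φ (ε i * vv (q i) u n1) * ((φ (rt i) ^ L / (ρ : ℂ) ^ L) ^ m - 1))).trans h2
    have h6 : 0 < ρ ^ (L * m) := by positivity
    apply mul_le_mul_of_nonneg_left _ h6.le
    linarith
  have hrest2 : ‖rest (n1 + L * m)‖ ≤ ρ ^ (L * m) * (-x / 2) := by
    refine (hrestb m).trans ?_
    have h1 : C0 * A * κ ^ (n1 + L * m) =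
        (C0 * A * κ ^ n1) * (Real.exp (-(2 * δ)) ^ (L * m) * ρ ^ (L * m)) := by
      rw [pow_add, ← mul_assoc, ← mul_pow]
    rw [h1]
    have h2 := hM1 m ((le_max_right _ _).trans hm)
    have h3 : 0 ≤ C0 * A * κ ^ n1 := by positivity
    have h4 : 0 < ρ ^ (L * m) := by positivity
    calc (C0 * A * κ ^ n1) * (Real.exp (-(2 * δ)) ^ (L * m) * ρ ^ (L * m)) ≤
        (-x) * (1 / 2 * ρ ^ (L * m)) := by
          apply mul_le_mul hsmall.le _ (by positivity) (by linarith)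
          gcongr
      _ = _ := by ring
  have hfin := hre (n1 + L * m)
  have h1 := Complex.re_le_norm (rest (n1 + L * m))
  have h2 : ((D * u (n1 + L * m) : ℤ) : ℝ) < 0 := by
    rw [hfin]
    have h3 : 0 < ρ ^ (L * m) := by positivity
    nlinarith
  have h3 : D * u (n1 + L * m) < 0 := by exact_mod_cast h2
  have h4 : N ≤ m := (le_max_left _ _).trans hm
  have h5 := hN (n1 + L * m) (by nlinarith)
  have h6 : 0 < D * u (n1 + L * m) := mul_pos hD h5
  omega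

end data

/-- the threshold theorem -/
theorem threshold (f : ℤ[X]) (hf : f.Monic) (hd : 1 ≤ f.natDegree)
    (h0 : IsUnit (f.coeff 0)) (hs : Squarefree (f.map (Int.castRingHom ℚ))) :
    ∃ B : ℝ, 0 < B ∧ ∀ u : ℕ → ℤ, Ann f u → ∀ A : ℝ, 1 ≤ A →
      (∀ k < f.natDegree, |(u k : ℝ)| ≤ A) → (∃ N : ℕ, ∀ n, N ≤ n → 0 < u n) →
      ∀ n : ℕ, u n ≤ 0 → (n : ℝ) ≤ B * (1 + Real.log A) := by
  classical
  obtain ⟨K, hfd, hnorm, hsplK, hI⟩ := exists_splitting f hf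
  have : NumberField K := { to_charZero := inferInstance, to_finiteDimensional := hfd }
  have : IsGalois ℚ K := { to_isSeparable := inferInstance, to_normal := hnorm }
  set ψ : K →+* ℂ := algebraMap K ℂ with hψ
  set cj : K ≃ₐ[ℚ] K := AlgEquiv.restrictNormal (Complex.conjAe.restrictScalars ℚ) K with hcj
  have hcj' : ∀ x, ψ (cj x) = (starRingEnd ℂ) (ψ x) := fun x =>
    AlgEquiv.restrictNormal_commutes (Complex.conjAe.restrictScalars ℚ) K x
  have hiint : IsIntegral ℤ (⟨Complex.I, hI⟩ : K) := by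
    refine IsIntegral.of_pow (n := 2) (by norm_num) ?_
    have h1 : (⟨Complex.I, hI⟩ : K) ^ 2 = -1 := by
      apply Subtype.ext
      show Complex.I ^ 2 = -1
      exact Complex.I_sq
    rw [h1]
    exact isIntegral_one.neg
  have hspl := Pool.Agent.H692R2.USS.SplitFieldAux.splits_OK K f hf hsplK
  obtain ⟨ι, _, _, q, rt, mu, hq, -, hrt, hdvd, hmu, hsq, hinj, hG⟩ := fam f hf hd hspl h0
  obtain ⟨L, hL, hLe⟩ := exists_exp (Finset.univ.image rt)
  have hnd : ∀ i i', (∃ k : ℕ, 1 ≤ k ∧ (rt i ^ L) ^ k = (rt i' ^ L) ^ k) →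
      rt i ^ L = rt i' ^ L := by
    rintro i i' ⟨k, hk, h⟩
    apply hLe _ (Finset.mem_image_of_mem _ (Finset.mem_univ i)) _
      (Finset.mem_image_of_mem _ (Finset.mem_univ i'))
    exact ⟨L * k, Nat.mul_pos hL hk, by rw [pow_mul, pow_mul]; exact h⟩
  exact threshold_K ψ cj hcj' ⟨⟨Complex.I, hI⟩, hiint⟩ rfl hf hd q rt hq hrt
    (fun i => (hdvd i).trans (mul_dvd_mul_right (pow_dvd_pow _ (hsq hs i)) _)) hinj hG L hL hnd

end Pool.Agent.TH717.SK
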