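import Mathlib
import Pool.Agent.TH717.SK.Fin
import Pool.Agent.H884R2.Sko.Density

/-!
The Skolem problem in the initial values of a fixed reversible recurrence is decidable; the
version for matrices.
-/

set_option autoImplicit false

open Finset Polynomial

namespace Pool.Agent.TH717.SK

open Pool.Agent.H692R2.USS Pool.Agent.H884R2.Sko Pool.Agent.Helper446 Pool.Agent.Helper446.RE

theorem ann_of_isSeq {d : ℕ} {c a : Fin d → ℤ} {u : ℕ → ℤ} (hu : IsSeq c a u) :
    Ann (charPoly c) u := by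
  rw [charPoly_eq]
  have hu' : u = seq (fun i => c (Fin.rev i)) a := funext ((isSeq_iff c a u).1 hu)
  rw [hu', ann_iff (N := d + 1) (by rw [chi_natDegree]; omega)]
  intro n
  have h1 : (chi (fun i => c (Fin.rev i)) : ℤ[X]).coeff d = 1 := by
    have := (chi_monic (fun i => c (Fin.rev i)) : (chi (fun i => c (Fin.rev i)) : ℤ[X]).Monic)
    rw [Monic, leadingCoeff, chi_natDegree] at this
    exact this
  rw [Finset.sum_range_succ, h1, one_mul, seq_sol, Finset.sum_range, ← Finset.sum_add_distrib]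
  refine Finset.sum_eq_zero fun i _ => ?_
  rw [chi_coeff]
  ring

theorem charPoly_monic {d : ℕ} (c : Fin d → ℤ) : (charPoly c).Monic := by
  rw [charPoly_eq]
  exact chi_monic _

theorem charPoly_natDegree {d : ℕ} (c : Fin d → ℤ) : (charPoly c).natDegree = d := by
  rw [charPoly_eq]
  exact chi_natDegree _

theorem charPoly_coeff_zero {d : ℕ} (hd : 1 ≤ d) (c : Fin d → ℤ) :
    (charPoly c).coeff 0 = -c ⟨d - 1, by omega⟩ := by
  rw [charPoly_eq]
  have := chi_coeff (fun i => c (Fin.rev i)) ⟨0, by omega⟩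
  simp only at this
  rw [this]
  congr 2

/-- the bound for recurrences -/
theorem seq_bound {d : ℕ} (hd : 1 ≤ d) (c : Fin d → ℤ) (hc : IsUnit (c ⟨d - 1, by omega⟩)) :
    ∃ (L : ℕ) (B : ℝ), 1 ≤ L ∧ 0 < B ∧ ∀ (a : Fin d → ℤ) (u : ℕ → ℤ), IsSeq c a u →
      ∀ n, u n = 0 → (∀ m, m ≡ n [MOD L] → u m = 0) ∨
        ((n : ℝ) ≤ B * (1 + ‖a‖) ∧
          (Squarefree ((charPoly c).map (Int.castRingHom ℚ)) →
            (n : ℝ) ≤ B * (1 + Real.log (1 + ‖a‖)))) := by
  obtain ⟨L, hL, B, hB, h⟩ := reversible_zeros (charPoly c) (charPoly_monic c)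
    (by rw [charPoly_natDegree]; exact hd)
    (by rw [charPoly_coeff_zero hd]; exact hc.neg)
  refine ⟨L, B, hL, hB, fun a u hu n hn => ?_⟩
  have h1 := norm_nonneg a
  refine h u (ann_of_isSeq hu) (1 + ‖a‖) (by linarith) ?_ n hn
  rw [charPoly_natDegree]
  intro k hk
  have h2 := hu.1 ⟨k, hk⟩
  simp only at h2
  rw [h2]
  have h3 := norm_le_pi_norm a ⟨k, hk⟩
  rw [Int.norm_eq_abs] at h3
  linarith

/-- decidability -/
theorem dec {d : ℕ} (hd : 1 ≤ d) (c : Fin d → ℤ) (hc : IsUnit (c ⟨d - 1, by omega⟩)) :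
    ComputablePred (fun a : List (ℕ × ℕ) => ∃ u, IsLRS (code c, a) u ∧ ∃ n, u n = 0) := by
  obtain ⟨L, B, hL, hB, h⟩ := seq_bound hd c hc
  obtain ⟨N, hN⟩ := exists_nat_gt (B + L + 1)
  have hcl : (code c).length = d := by simp [code]
  have key : ∀ a : List (ℕ × ℕ), (∃ u, IsLRS (code c, a) u ∧ ∃ n, u n = 0) ↔
      (a.length = d ∧ ∃ n < N * (1 + ∑ i ∈ range d, ((a.getD i (0, 0)).1 + (a.getD i (0, 0)).2)),
        (run (Fq (code c)) a n).1 = (run (Fq (code c)) a n).2) := by
    intro a
    constructor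
    · rintro ⟨u, hu, n, hn⟩
      have hal : a.length = d := by
        have := hu.1
        simp only at this
        rw [← this, hcl]
      refine ⟨hal, ?_⟩
      have hrun := isLRS_run' hu
      simp only at hrun
      have hrun0 : ∀ m, u m = 0 → (run (Fq (code c)) a m).1 = (run (Fq (code c)) a m).2 := by
        intro m hm
        have := hrun m
        rw [hm] at this
        unfold iv at this
        omega
      -- the initial values
      set x : Fin d → ℤ := fun i => u i with hx
      have hseq : IsSeq c x u := by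
        refine ⟨fun i => rfl, fun m => ?_⟩
        have h1 := hu.2.2.2 m
        simp only [hcl] at h1
        rw [h1, ← Fin.sum_univ_eq_sum_range (fun i => ((((code c).getD i (0, 0)).1 : ℤ) -
          (((code c).getD i (0, 0)).2 : ℤ)) * u (m + d - 1 - i))]
        refine Finset.sum_congr rfl fun i _ => ?_
        rw [code_getD c i i.2]
        simp only
        rw [code_val]
      set S := ∑ i ∈ range d, ((a.getD i (0, 0)).1 + (a.getD i (0, 0)).2) with hS
      have hxS : ‖x‖ ≤ S := by
        rw [pi_norm_le_iff_of_nonneg (Nat.cast_nonneg _)]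
        intro i
        rw [Int.norm_eq_abs]
        have h1 : x i = ((a.getD i (0, 0)).1 : ℤ) - ((a.getD i (0, 0)).2 : ℤ) :=
          hu.2.2.1 i (by simp only [hal]; exact i.2)
        have h2 : |x i| ≤ (((a.getD i (0, 0)).1 + (a.getD i (0, 0)).2 : ℕ) : ℤ) := by
          rw [h1, abs_le]
          push_cast
          constructor <;> omega
        have h3 : (a.getD i (0, 0)).1 + (a.getD i (0, 0)).2 ≤ S :=
          Finset.single_le_sum (f := fun i => (a.getD i (0, 0)).1 + (a.getD i (0, 0)).2)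
            (fun _ _ => Nat.zero_le _) (Finset.mem_range.2 i.2)
        have h4 : |x i| ≤ (S : ℤ) := h2.trans (by exact_mod_cast h3)
        exact_mod_cast h4
      rcases h x u hseq n hn with h1 | ⟨h1, -⟩
      · refine ⟨n % L, ?_, hrun0 _ (h1 _ (Nat.mod_modEq _ _))⟩
        have h2 : n % L < L := Nat.mod_lt _ hL
        have h3 : L < N := by
          have : (L : ℝ) < N := by linarith
          exact_mod_cast this
        nlinarith [Nat.zero_le S, Nat.zero_le N]
      · refine ⟨n, ?_, hrun0 _ hn⟩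
        have h2 : (n : ℝ) < N * (1 + S) := by
          have hS0 : (0 : ℝ) ≤ S := Nat.cast_nonneg _
          have hL0 : (0 : ℝ) ≤ L := Nat.cast_nonneg _
          calc (n : ℝ) ≤ B * (1 + ‖x‖) := h1
            _ ≤ B * (1 + S) := by gcongr
            _ < N * (1 + S) := by
                apply mul_lt_mul_of_pos_right _ (by positivity)
                linarith
        exact_mod_cast h2
    · rintro ⟨hal, n, -, hn⟩
      -- the sequence
      set x : Fin d → ℤ := fun i => ((a.getD i (0, 0)).1 : ℤ) - ((a.getD i (0, 0)).2 : ℤ) with hx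
      obtain ⟨u, hu⟩ := exists_isSeq c x
      have hlrs : IsLRS (code c, a) u := by
        refine ⟨by simp only [hcl, hal], ?_, ?_, ?_⟩
        · refine ⟨(code c).getD (d - 1) (0, 0), ?_, ?_⟩
          · show (code c).getD (d - 1) (0, 0) ∈ (code c).getLast?
            rw [Option.mem_def, List.getLast?_eq_getElem?, List.getD_eq_getElem?_getD, hcl]
            rw [List.getElem?_eq_getElem (by omega)]
            rfl
          · rw [code_getD c (d - 1) (by omega)]
            simp only
            intro h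
            have hc0 := hc.ne_zero
            apply hc0
            have := code_val (c ⟨d - 1, by omega⟩)
            omega
        · intro i hi
          simp only [hal] at hi
          exact hu.1 ⟨i, hi⟩
        · intro m
          simp only [hcl]
          rw [hu.2 m, ← Fin.sum_univ_eq_sum_range (fun i => ((((code c).getD i (0, 0)).1 : ℤ) -
            (((code c).getD i (0, 0)).2 : ℤ)) * u (m + d - 1 - i))]
          refine Finset.sum_congr rfl fun i _ => ?_
          rw [code_getD c i i.2]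
          simp only
          rw [code_val]
      refine ⟨u, hlrs, n, ?_⟩
      have := isLRS_run' hlrs n
      rw [← this]
      unfold iv
      simp only
      rw [hn, sub_self]
  refine ComputablePred.of_eq (p := fun a : List (ℕ × ℕ) => a.length = d ∧
    ∃ n < N * (1 + ∑ i ∈ range d, ((a.getD i (0, 0)).1 + (a.getD i (0, 0)).2)),
      (run (Fq (code c)) a n).1 = (run (Fq (code c)) a n).2) ?_ fun a => (key a).symm
  refine cp_and (cp_eq (by fun_prop) (by fun_prop)) (cp_ex (p := fun a n =>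
    (run (Fq (code c)) a n).1 = (run (Fq (code c)) a n).2) (cp_eq (by fun_prop) (by fun_prop)) ?_)
  have h1 := csum (α := List (ℕ × ℕ)) (g := fun a i => (a.getD i (0, 0)).1 + (a.getD i (0, 0)).2)
    (by fun_prop) (f := fun _ => d) (Computable.const d)
  fun_prop

/-- the version for matrices -/
theorem mat_bound {d : ℕ} (M : Matrix (Fin d) (Fin d) ℤ) (hM : IsUnit M.det) :
    ∃ (L : ℕ) (B : ℝ), 1 ≤ L ∧ 0 < B ∧ ∀ (w x : Fin d → ℤ) (n : ℕ),
      w ⬝ᵥ ((M ^ n).mulVec x) = 0 → (∀ m, m ≡ n [MOD L] → w ⬝ᵥ ((M ^ m).mulVec x) = 0) ∨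
        ((n : ℝ) ≤ B * (1 + ‖w‖ * ‖x‖) ∧
          (Squarefree (M.charpoly.map (Int.castRingHom ℚ)) →
            (n : ℝ) ≤ B * (1 + Real.log (1 + ‖w‖ * ‖x‖)))) := by
  rcases Nat.eq_zero_or_pos d with rfl | hd
  · refine ⟨1, 1, le_rfl, one_pos, fun w x n _ => Or.inl fun m _ => ?_⟩
    simp [dotProduct]
  have hdeg : M.charpoly.natDegree = d := by
    rw [Matrix.charpoly_natDegree_eq_dim, Fintype.card_fin]
  obtain ⟨L, hL, B, hB, h⟩ := reversible_zeros M.charpoly M.charpoly_monic
    (by rw [hdeg]; exact hd)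
    (by
      rw [Matrix.det_eq_sign_charpoly_coeff] at hM
      exact isUnit_of_mul_isUnit_right hM)
  -- sizes of the first terms
  set G : ℝ := 1 + ∑ k ∈ range d, ∑ i, ∑ j, |((M ^ k) i j : ℝ)| with hG
  have hG1 : 1 ≤ G := by
    have : 0 ≤ ∑ k ∈ range d, ∑ i, ∑ j, |((M ^ k) i j : ℝ)| :=
      Finset.sum_nonneg fun k _ => Finset.sum_nonneg fun i _ => Finset.sum_nonneg fun j _ =>
        abs_nonneg _
    rw [hG]; linarith
  have hlogG : 0 ≤ Real.log G := Real.log_nonneg hG1
  refine ⟨L, B * (G * (1 + Real.log G)), hL, by positivity, fun w x n hn => ?_⟩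
  set u : ℕ → ℤ := fun n => w ⬝ᵥ ((M ^ n).mulVec x) with hu
  have hann : Ann M.charpoly u := by
    rw [ann_iff (Nat.lt_succ_self _)]
    intro m
    have h1 : ∑ i ∈ range (M.charpoly.natDegree + 1), M.charpoly.coeff i • M ^ i = 0 := by
      rw [← aeval_eq_sum_range]
      exact M.aeval_self_charpoly
    have h2 : ∑ i ∈ range (M.charpoly.natDegree + 1), M.charpoly.coeff i * u (m + i) =
        w ⬝ᵥ ((M ^ m * ∑ i ∈ range (M.charpoly.natDegree + 1),
          M.charpoly.coeff i • M ^ i).mulVec x) := by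
      rw [Finset.mul_sum, Matrix.sum_mulVec, dotProduct_sum]
      refine Finset.sum_congr rfl fun i _ => ?_
      rw [Matrix.mul_smul, ← pow_add, Matrix.smul_mulVec, dotProduct_smul, smul_eq_mul]
    show ∑ i ∈ range (M.charpoly.natDegree + 1), M.charpoly.coeff i * u (m + i) = 0
    rw [h2, h1, mul_zero, Matrix.zero_mulVec, dotProduct_zero]
  have hw0 := norm_nonneg w
  have hx0 := norm_nonneg x
  have hsz : ∀ k < M.charpoly.natDegree, |(u k : ℝ)| ≤ G * (1 + ‖w‖ * ‖x‖) := by
    rw [hdeg]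
    intro k hk
    have h1 : (u k : ℝ) = ∑ i, (w i : ℝ) * ∑ j, ((M ^ k) i j : ℝ) * (x j : ℝ) := by
      simp only [hu, dotProduct, Matrix.mulVec]
      push_cast
      rfl
    have h2 : |(u k : ℝ)| ≤ ∑ i, ∑ j, |((M ^ k) i j : ℝ)| * (‖w‖ * ‖x‖) := by
      rw [h1]
      refine (Finset.abs_sum_le_sum_abs _ _).trans (Finset.sum_le_sum fun i _ => ?_)
      rw [abs_mul]
      have hwi : |(w i : ℝ)| ≤ ‖w‖ := by
        have := norm_le_pi_norm w i
        rwa [Int.norm_eq_abs] at this
      calc |(w i : ℝ)| * |∑ j, ((M ^ k) i j : ℝ) * (x j : ℝ)| ≤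
          ‖w‖ * ∑ j, |((M ^ k) i j : ℝ) * (x j : ℝ)| :=
            mul_le_mul hwi (Finset.abs_sum_le_sum_abs _ _) (abs_nonneg _) hw0
        _ ≤ ‖w‖ * ∑ j, |((M ^ k) i j : ℝ)| * ‖x‖ := by
            gcongr with j
            rw [abs_mul]
            have hxj : |(x j : ℝ)| ≤ ‖x‖ := by
              have := norm_le_pi_norm x j
              rwa [Int.norm_eq_abs] at this
            gcongr
        _ = ∑ j, |((M ^ k) i j : ℝ)| * (‖w‖ * ‖x‖) := by
            rw [Finset.mul_sum]
            exact Finset.sum_congr rfl fun j _ => by ring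
    have h3 : ∑ i, ∑ j, |((M ^ k) i j : ℝ)| * (‖w‖ * ‖x‖) ≤ G * (‖w‖ * ‖x‖) := by
      simp_rw [← Finset.sum_mul]
      gcongr
      have := Finset.single_le_sum (f := fun k => ∑ i, ∑ j, |((M ^ k) i j : ℝ)|)
        (fun k _ => Finset.sum_nonneg fun i _ => Finset.sum_nonneg fun j _ => abs_nonneg _)
        (Finset.mem_range.2 hk)
      rw [hG]
      linarith
    have h4 : 0 ≤ ‖w‖ * ‖x‖ := by positivity
    nlinarith
  have hA1 : 1 ≤ G * (1 + ‖w‖ * ‖x‖) := by
    have h4 : 0 ≤ ‖w‖ * ‖x‖ := by positivity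
    nlinarith
  rcases h u hann (G * (1 + ‖w‖ * ‖x‖)) hA1 hsz n hn with h1 | ⟨h1, h2⟩
  · exact Or.inl h1
  · right
    have h4 : 0 ≤ ‖w‖ * ‖x‖ := by positivity
    constructor
    · calc (n : ℝ) ≤ B * (G * (1 + ‖w‖ * ‖x‖)) := h1
        _ = B * (G * 1) * (1 + ‖w‖ * ‖x‖) := by ring
        _ ≤ B * (G * (1 + Real.log G)) * (1 + ‖w‖ * ‖x‖) := by
            gcongr
            linarith
    · intro hs
      have h5 : 0 ≤ Real.log (1 + ‖w‖ * ‖x‖) := Real.log_nonneg (by linarith)
      calc (n : ℝ) ≤ B * (1 + Real.log (G * (1 + ‖w‖ * ‖x‖))) := h2 hs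
        _ = B * (1 + (Real.log G + Real.log (1 + ‖w‖ * ‖x‖))) := by
            rw [Real.log_mul (by positivity) (by positivity)]
        _ ≤ B * ((1 + Real.log G) * (1 + Real.log (1 + ‖w‖ * ‖x‖))) := by
            gcongr
            nlinarith
        _ ≤ B * ((G * (1 + Real.log G)) * (1 + Real.log (1 + ‖w‖ * ‖x‖))) := by
            gcongr
            nlinarith
        _ = _ := by ring

end Pool.Agent.TH717.SK
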