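import Mathlib
import Pool.Agent.TH717.SK.Thr
import Pool.Agent.TH717.SK.Dec
import Pool.Agent.H612.LR.Defs

/-!
The threshold theorem for instances of the Positivity problem.
-/

set_option autoImplicit false

open Finset Polynomial

namespace Pool.Agent.TH717.SK

open Pool.Agent.H884R2.Sko

namespace P0

abbrev Rec := Pool.Agent.H612.LR.Rec

theorem seq_ini (l : Rec) (n : ℕ) (h : n < l.length) :
    Pool.Agent.H612.LR.seq l n = Pool.Agent.H612.LR.ini l n := by
  rw [Pool.Agent.H612.LR.seq]
  simp [h]

theorem seq_rec (l : Rec) (n : ℕ) (h : ¬ n < l.length) :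
    Pool.Agent.H612.LR.seq l n = ∑ i ∈ Finset.range l.length,
      Pool.Agent.H612.LR.coef l i * Pool.Agent.H612.LR.seq l (n - 1 - i) := by
  rw [Pool.Agent.H612.LR.seq]
  rw [if_neg h]
  exact Fin.sum_univ_eq_sum_range (fun i => Pool.Agent.H612.LR.coef l i *
    Pool.Agent.H612.LR.seq l (n - 1 - i)) l.length

/-- the product of the denominators of the initial values -/
def dn (l : Rec) : ℕ := (l.map fun p => p.2.den).prod

theorem dn_pos (l : Rec) : 0 < dn l := by
  unfold dn
  induction l with
  | nil => simp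
  | cons p l ih =>
    simp only [List.map_cons, List.prod_cons]
    exact Nat.mul_pos p.2.den_pos ih

theorem den_dvd_dn (l : Rec) (k : ℕ) : (Pool.Agent.H612.LR.ini l k).den ∣ dn l := by
  unfold dn Pool.Agent.H612.LR.ini
  induction l generalizing k with
  | nil => simp
  | cons p l ih =>
    simp only [List.map_cons, List.prod_cons]
    cases k with
    | zero => simp
    | succ k => simpa using (ih k).mul_left p.2.den

theorem num_le (l : Rec) (k : ℕ) : (Pool.Agent.H612.LR.ini l k).num.natAbs ≤
    (l.map fun p => p.2.num.natAbs + 1).prod := by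
  unfold Pool.Agent.H612.LR.ini
  induction l generalizing k with
  | nil => simp
  | cons p l ih =>
    simp only [List.map_cons, List.prod_cons]
    have hpos : 0 < (l.map fun p => p.2.num.natAbs + 1).prod := by
      apply List.prod_pos
      intro x hx
      rw [List.mem_map] at hx
      obtain ⟨p, -, rfl⟩ := hx
      omega
    cases k with
    | zero =>
      simp only [List.getD_cons_zero]
      calc p.2.num.natAbs ≤ (p.2.num.natAbs + 1) * 1 := by omega
        _ ≤ _ := Nat.mul_le_mul_left _ hpos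
    | succ k =>
      have := ih k
      simp only [List.getD_cons_succ]
      exact this.trans (Nat.le_mul_of_pos_left _ (Nat.succ_pos _))

theorem lt_pow_bits (n : ℕ) : n + 1 ≤ 2 ^ n.bits.length := by
  rw [Nat.size_eq_bits_len]
  exact Nat.lt_size_self n

theorem sz_cons (p : ℚ × ℚ) (l : Rec) : Pool.Agent.H612.LR.sz (p :: l) =
    1 + (p.1.num.natAbs.bits.length + (p.1.den.bits.length + (p.2.num.natAbs.bits.length +
      p.2.den.bits.length))) + Pool.Agent.H612.LR.sz l := by
  unfold Pool.Agent.H612.LR.sz Pool.Agent.H612.LR.szList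
  simp only [List.flatMap_cons, List.length_append, List.length_cons]
  omega

theorem prod_le (l : Rec) : dn l * (l.map fun p => p.2.num.natAbs + 1).prod ≤
    2 ^ Pool.Agent.H612.LR.sz l := by
  unfold dn
  induction l with
  | nil => simp [Pool.Agent.H612.LR.sz, Pool.Agent.H612.LR.szList]
  | cons p l ih =>
    simp only [List.map_cons, List.prod_cons]
    rw [sz_cons]
    have h1 := lt_pow_bits p.2.num.natAbs
    have h2 := lt_pow_bits p.2.den
    calc p.2.den * (l.map fun p => p.2.den).prod *
        ((p.2.num.natAbs + 1) * (l.map fun p => p.2.num.natAbs + 1).prod) =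
        (p.2.den * (p.2.num.natAbs + 1)) * ((l.map fun p => p.2.den).prod *
          (l.map fun p => p.2.num.natAbs + 1).prod) := by ring
      _ ≤ (2 ^ p.2.den.bits.length * 2 ^ p.2.num.natAbs.bits.length) *
          2 ^ Pool.Agent.H612.LR.sz l := by
          gcongr
          omega
      _ = 2 ^ (p.2.num.natAbs.bits.length + p.2.den.bits.length +
          Pool.Agent.H612.LR.sz l) := by ring
      _ ≤ _ := Nat.pow_le_pow_right (by norm_num) (by omega)

theorem len_le_sz (l : Rec) : l.length ≤ Pool.Agent.H612.LR.sz l := by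
  induction l with
  | nil => simp
  | cons p l ih =>
    rw [sz_cons, List.length_cons]
    omega

theorem coef_eq {cs : List ℤ} {l : Rec}
    (h : l.map Prod.fst = cs.map (fun z : ℤ => (z : ℚ))) (i : ℕ) :
    Pool.Agent.H612.LR.coef l i = ((cs.getD i 0 : ℤ) : ℚ) := by
  unfold Pool.Agent.H612.LR.coef
  have h1 : (l.map Prod.fst).getD i 0 = (cs.map (fun z : ℤ => (z : ℚ))).getD i 0 := by rw [h]
  rw [List.getD_eq_getElem?_getD, List.getElem?_map] at h1
  rw [List.getD_eq_getElem?_getD (l := cs.map (fun z : ℤ => (z : ℚ))), List.getElem?_map] at h1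
  rw [List.getD_eq_getElem?_getD, List.getD_eq_getElem?_getD]
  rcases hl : l[i]? with _ | x <;> rcases hcc : cs[i]? with _ | y <;> rw [hl, hcc] at h1 <;>
    simpa using h1

theorem len_eq {c : List ℤ} {l : Rec}
    (h : l.map Prod.fst = c.map (fun z : ℤ => (z : ℚ))) : l.length = c.length := by
  have := congrArg List.length h
  simpa using this

theorem chi_eq {c : List ℤ} {l : Rec}
    (h : l.map Prod.fst = c.map (fun z : ℤ => (z : ℚ))) :
    Pool.Agent.H612.LR.chi l =
      (charPoly (fun i : Fin c.length => c.getD i 0)).map (Int.castRingHom ℚ) := by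
  unfold Pool.Agent.H612.LR.chi charPoly
  rw [len_eq h, Polynomial.map_sub, Polynomial.map_pow, Polynomial.map_X, Polynomial.map_sum,
    Finset.sum_range]
  congr 1
  refine Finset.sum_congr rfl fun i _ => ?_
  rw [coef_eq h, Polynomial.map_mul, Polynomial.map_pow, Polynomial.map_X, Polynomial.map_C]
  rfl

theorem sqf {c : List ℤ} {l : Rec}
    (h : l.map Prod.fst = c.map (fun z : ℤ => (z : ℚ))) (hs : Pool.Agent.H612.LR.Simple l) :
    Squarefree ((charPoly (fun i : Fin c.length => c.getD i 0)).map (Int.castRingHom ℚ)) := by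
  unfold Pool.Agent.H612.LR.Simple Pool.Agent.H612.LR.croots at hs
  rw [chi_eq h] at hs
  have hm := charPoly_monic (fun i : Fin c.length => c.getD i 0)
  have h1 := (Polynomial.nodup_roots_iff_of_splits ((hm.map _).map _).ne_zero
    (IsAlgClosed.splits _)).1 hs
  rw [Polynomial.separable_map] at h1
  exact h1.squarefree

/-- the integer sequence -/
theorem exists_int {c : List ℤ} {l : Rec}
    (h : l.map Prod.fst = c.map (fun z : ℤ => (z : ℚ))) :
    ∃ u : ℕ → ℤ, Pool.Agent.H692R2.USS.Ann (charPoly (fun i : Fin c.length => c.getD i 0)) u ∧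
      ∀ n, (u n : ℚ) = dn l * Pool.Agent.H612.LR.seq l n := by
  have hlen := len_eq h
  have hint : ∀ k, ∃ z : ℤ, (z : ℚ) = dn l * Pool.Agent.H612.LR.ini l k := by
    intro k
    obtain ⟨m, hm⟩ := den_dvd_dn l k
    refine ⟨m * (Pool.Agent.H612.LR.ini l k).num, ?_⟩
    rw [hm]
    push_cast
    have h1 := Rat.mul_den_eq_num (Pool.Agent.H612.LR.ini l k)
    rw [← h1]
    ring
  choose a ha using hint
  obtain ⟨u, hu⟩ := exists_isSeq (fun i : Fin c.length => c.getD i 0)
    (fun i : Fin c.length => a i)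
  refine ⟨u, ann_of_isSeq hu, fun n => ?_⟩
  induction n using Nat.strong_induction_on with
  | _ n ih =>
    by_cases hn : n < l.length
    · have h1 := hu.1 ⟨n, by omega⟩
      simp only at h1
      rw [seq_ini l n hn, h1, ha]
    · obtain ⟨m, rfl⟩ : ∃ m, n = m + c.length := ⟨n - c.length, by omega⟩
      rw [seq_rec l _ hn, hu.2 m, hlen, Finset.mul_sum, Finset.sum_range]
      push_cast
      refine Finset.sum_congr rfl fun i _ => ?_
      have hi := i.2
      rw [coef_eq h, ih (m + c.length - 1 - i) (by omega)]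
      ring

end P0

open P0 in
/-- the threshold for fixed coefficients -/
theorem thr_rec (c : List ℤ) (hc : c.getLast? = some 1 ∨ c.getLast? = some (-1)) :
    ∃ B : ℕ, ∀ l : Rec, l.map Prod.fst = c.map (fun z : ℤ => (z : ℚ)) →
      Pool.Agent.H612.LR.Simple l → Pool.Agent.H612.LR.UltPositive l →
      ∀ n, Pool.Agent.H612.LR.seq l n ≤ 0 → n ≤ B * Pool.Agent.H612.LR.sz l := by
  by_cases hs : Squarefree
    ((charPoly (fun i : Fin c.length => c.getD i 0)).map (Int.castRingHom ℚ))
  swap
  · exact ⟨0, fun l h1 h2 => absurd (sqf h1 h2) hs⟩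
  have hd : 1 ≤ c.length := by
    cases c with
    | nil => simp at hc
    | cons x c => simp
  have hlast : IsUnit (c.getD (c.length - 1) 0) := by
    have h1 : c.getLast? = some (c.getD (c.length - 1) 0) := by
      rw [List.getLast?_eq_getElem?, List.getD_eq_getElem?_getD,
        List.getElem?_eq_getElem (by omega)]
      rfl
    rw [h1] at hc
    rcases hc with hc | hc
    · rw [Option.some_inj] at hc
      rw [hc]
      exact isUnit_one
    · rw [Option.some_inj] at hc
      rw [hc]
      exact isUnit_one.neg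
  obtain ⟨B, hB, hthr⟩ := threshold (charPoly (fun i : Fin c.length => c.getD i 0))
    (charPoly_monic _) (by rw [charPoly_natDegree]; exact hd)
    (by rw [charPoly_coeff_zero hd]; exact hlast.neg) hs
  obtain ⟨B', hB'⟩ := exists_nat_ge (2 * B)
  refine ⟨B', fun l h1 h2 h3 n hn => ?_⟩
  obtain ⟨u, hu, hval⟩ := exists_int h1
  have hsz : 1 ≤ Pool.Agent.H612.LR.sz l := by
    have := len_le_sz l
    rw [len_eq h1] at this
    omega
  have hdn : (0 : ℚ) < dn l := by exact_mod_cast dn_pos l
  have hA : (1 : ℝ) ≤ 2 ^ Pool.Agent.H612.LR.sz l := one_le_pow₀ (by norm_num)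
  have hbd : ∀ k < (charPoly (fun i : Fin c.length => c.getD i 0)).natDegree,
      |(u k : ℝ)| ≤ 2 ^ Pool.Agent.H612.LR.sz l := by
    rw [charPoly_natDegree]
    intro k hk
    have h4 : (|u k| : ℤ) ≤ ((2 ^ Pool.Agent.H612.LR.sz l : ℕ) : ℤ) := by
      have h5 : ((|u k| : ℤ) : ℚ) ≤ ((dn l * (Pool.Agent.H612.LR.ini l k).num.natAbs : ℕ) : ℚ) := by
        push_cast
        rw [hval k, seq_ini l k (by rw [len_eq h1]; exact hk), abs_mul, abs_of_pos hdn,
          Nat.cast_natAbs, Int.cast_abs]
        refine mul_le_mul_of_nonneg_left ?_ hdn.le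
        have h6 := Rat.mul_den_eq_num (Pool.Agent.H612.LR.ini l k)
        have h7 : |((Pool.Agent.H612.LR.ini l k).num : ℚ)| =
            |Pool.Agent.H612.LR.ini l k| * (Pool.Agent.H612.LR.ini l k).den := by
          rw [← h6, abs_mul, Nat.abs_cast]
        rw [h7]
        have h8 : (1 : ℚ) ≤ (Pool.Agent.H612.LR.ini l k).den := by
          exact_mod_cast (Pool.Agent.H612.LR.ini l k).den_pos
        nlinarith [abs_nonneg (Pool.Agent.H612.LR.ini l k)]
      have h6 : |u k| ≤ ((dn l * (Pool.Agent.H612.LR.ini l k).num.natAbs : ℕ) : ℤ) := by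
        rw [← Int.cast_natCast] at h5
        exact Int.cast_le.1 h5
      refine h6.trans ?_
      exact_mod_cast (Nat.mul_le_mul_left _ (num_le l k)).trans (prod_le l)
    have h5 : ((|u k| : ℤ) : ℝ) ≤ (((2 ^ Pool.Agent.H612.LR.sz l : ℕ) : ℤ) : ℝ) := by
      exact_mod_cast h4
    push_cast at h5
    exact h5
  have hup : ∃ N : ℕ, ∀ n, N ≤ n → 0 < u n := by
    obtain ⟨N, hN⟩ := h3
    refine ⟨N, fun n hn => ?_⟩
    have h4 : (0 : ℚ) < u n := by
      rw [hval]
      exact mul_pos hdn (hN n hn)
    exact_mod_cast h4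
  have hle : u n ≤ 0 := by
    have h4 : (u n : ℚ) ≤ 0 := by
      rw [hval]
      exact mul_nonpos_of_nonneg_of_nonpos hdn.le hn
    exact_mod_cast h4
  have h4 := hthr u hu _ hA hbd hup n hle
  rw [Real.log_pow] at h4
  have h5 : Real.log 2 ≤ 1 := by
    have := Real.log_two_lt_d9
    linarith
  have h6 : (1 : ℝ) ≤ Pool.Agent.H612.LR.sz l := by exact_mod_cast hsz
  have h7 : (n : ℝ) ≤ B' * Pool.Agent.H612.LR.sz l := by
    calc (n : ℝ) ≤ B * (1 + Pool.Agent.H612.LR.sz l * Real.log 2) := h4
      _ ≤ B * (Pool.Agent.H612.LR.sz l + Pool.Agent.H612.LR.sz l * 1) := by gcongr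
      _ = (2 * B) * Pool.Agent.H612.LR.sz l := by ring
      _ ≤ B' * Pool.Agent.H612.LR.sz l := by gcongr
  exact_mod_cast h7

end Pool.Agent.TH717.SK
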